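import Pool.Agent.K7.H52.CF.Core

/-!
Zeros of `Q(-D / log (T / 2π)) ζ` on both sides of the line and its size.
-/

set_option autoImplicit false

open Polynomial Filter Topology Set Metric

namespace Pool.Agent.K7.H52.CF

open Pool.Agent.K7.H52.SP Pool.Agent.K7.H52.DL H345 H345.Chi H370 H370.Loc

/-- few zeros imply small values, on a disc -/
lemma few_small {δ' δ ε : ℝ} (_h1 : 0 < δ') (h2 : δ' ≤ 1 / 4) (hδ : 0 < δ) (hδ1 : δ ≤ 1 / 16) (hε : 0 < ε)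
    {a C : ℝ} (ha : 0 < a) : ∃ η T₀ : ℝ, 0 < η ∧ 24 ≤ T₀ ∧ ∀ T : ℝ, T₀ ≤ T → ∀ (f : ℂ → ℂ) (c : ℂ),
      (∀ z ∈ closedBall c (1 - δ' + 2 * δ), AnalyticAt ℂ f z ∧ ‖f z‖ ≤ Real.exp (2 * Real.log T)) →
      (∀ z ∈ closedBall c (1 / 4), f z ≠ 0 ∧ ‖f z‖ ≤ C) → a ≤ ‖f c‖ →
      (∀ S : Finset ℂ, (∀ z ∈ S, z ∈ closedBall c (1 - δ' + δ) ∧ f z = 0) →
        ∑ z ∈ S, (mult f z : ℝ) ≤ η * Real.log T) →
      ∀ z ∈ closedBall c (1 - δ'), ‖f z‖ ≤ Real.exp (ε * Real.log T) := by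
  obtain ⟨η, hη, L₀, hL₀, hbk⟩ := bk (R := 1 - δ' + 2 * δ) (δ := δ) (l := 1 / 4) (B := 2) (ε := ε)
    (by linarith) hδ (by norm_num) (by linarith) (by norm_num) hε
  obtain ⟨T₁, hT₁, hab⟩ := absorb (max C (1 / a)) hη
  refine ⟨η, T₁ + Real.exp L₀ + 24, hη, by linarith [Real.exp_pos L₀], ?_⟩
  intro T hT f c hf hC hfa hz z hz2
  have hexpL : 0 < Real.exp L₀ := Real.exp_pos _
  have hL : L₀ ≤ Real.log T := log_ge_of (by linarith)
  have hab' := hab T (by linarith)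
  refine hbk (Real.log T) hL f c (fun w hw => (hf w hw).1) (fun w hw => (hf w hw).2)
    (fun w hw => ⟨(hC w hw).1, (hC w hw).2.trans ((le_max_left _ _).trans hab')⟩) ?_ (fun S hS => ?_) z ?_
  · have h3 : 1 / a ≤ Real.exp (η * Real.log T) := (le_max_right _ _).trans hab'
    rw [Real.exp_neg]
    refine le_trans ?_ hfa
    rw [div_le_iff₀ ha] at h3
    rw [inv_le_comm₀ (Real.exp_pos _) ha]
    rw [inv_eq_one_div, div_le_iff₀ ha]
    exact h3
  · refine hz S fun w hw => ⟨?_, (hS w hw).2⟩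
    have := (hS w hw).1
    rwa [show 1 - δ' + 2 * δ - δ = 1 - δ' + δ by ring] at this
  · rwa [show 1 - δ' + 2 * δ - 2 * δ = 1 - δ' by ring]

/-- small values imply few zeros -/
lemma few_count {δ ε W : ℝ} (hδ : 0 < δ) (hδ1 : δ ≤ 1) (hε : 0 < ε) (hW : 0 ≤ W) {a : ℝ} (ha : 0 < a) :
    ∃ η T₀ : ℝ, 0 < η ∧ 24 ≤ T₀ ∧ ∀ T : ℝ, T₀ ≤ T → ∀ (f : ℂ → ℂ) (x : ℝ) (S : Finset ℂ),
      (∀ z : ℂ, |z.re - x| ≤ 1 - δ / 4 → |z.im - T| ≤ W + 1 → AnalyticAt ℂ f z ∧ ‖f z‖ ≤ Real.exp (η * Real.log T)) →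
      (∀ t : ℝ, |t - T| ≤ W → a ≤ ‖f ⟨x, t⟩‖) →
      (∀ s ∈ S, |s.im - T| ≤ W ∧ AnalyticAt ℂ f s ∧ (f s = 0 → |s.re - x| ≤ 1 - δ)) →
      ∑ z ∈ S, (mult f z : ℝ) ≤ ε * Real.log T := by
  classical
  set R : ℝ := 1 - δ / 4 with hR
  set r : ℝ := 1 - δ / 2 with hr
  have hr0 : 0 < r := by linarith
  have hrR : r < R := by linarith
  have hlogpos : 0 < Real.log (R / r) := Real.log_pos (by rw [lt_div_iff₀ hr0]; linarith)
  set N : ℝ := (⌊2 * W / (δ / 2)⌋₊ : ℝ) + 1 with hN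
  have hN0 : 0 < N := by positivity
  set η : ℝ := ε * Real.log (R / r) / (2 * N) with hη
  have hη0 : 0 < η := by positivity
  obtain ⟨T₂, hT₂, hab⟩ := absorb (1 / a) hη0
  refine ⟨η, T₂ + 24, hη0, by linarith, ?_⟩
  intro T hT f x S hf hfa hS
  have hL0 : 0 < Real.log T := Real.log_pos (by linarith)
  set L := Real.log T with hL
  have hcov := cover (f := f) (T := T) (W := W) (h := δ / 2) (b := 2 * η * L / Real.log (R / r))
    (by positivity) hW S (fun s hs => (hS s hs).1) (by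
      intro t ht S' hS' hS'2
      have htW := abs_le.1 ht
      set c : ℂ := ⟨x, t⟩ with hc
      set S'' : Finset ℂ := S'.filter (fun s => f s = 0) with hS''
      have hsum : ∑ s ∈ S', (mult f s : ℝ) = ∑ s ∈ S'', (mult f s : ℝ) := by
        rw [hS'', Finset.sum_filter]
        refine Finset.sum_congr rfl fun s hs => ?_
        by_cases h : f s = 0
        · rw [if_pos h]
        · rw [if_neg h, mult_zero (hS s (hS' hs)).2.1 h]
          simp
      rw [hsum]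
      have hwin : ∀ z ∈ closedBall c R, |z.re - x| ≤ R ∧ |z.im - T| ≤ W + 1 := by
        intro z hz
        obtain ⟨h1, h2, h3, h4⟩ := ball_coord hz
        simp only [hc] at h1 h2 h3 h4
        refine ⟨abs_le.2 ⟨by linarith, by linarith⟩, abs_le.2 ⟨by linarith, by linarith⟩⟩
      refine jn (R := R) (r := r) (η := η) (L := L) (c := c) hr0 hrR (by positivity)
        (fun z hz => (hf z (hwin z hz).1 (hwin z hz).2).1)
        (fun z hz => (hf z (hwin z hz).1 (hwin z hz).2).2) ?_ S'' ?_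
      · have h1 := hfa t ht
        have h2 : 1 / a ≤ Real.exp (η * L) := hab T (by linarith)
        rw [Real.exp_neg]
        refine le_trans ?_ h1
        rw [div_le_iff₀ ha] at h2
        rw [inv_le_comm₀ (Real.exp_pos _) ha]
        rw [inv_eq_one_div, div_le_iff₀ ha]
        exact h2
      · intro s hs
        rw [hS'', Finset.mem_filter] at hs
        obtain ⟨hs1, hs2⟩ := hs
        have h1 := (hS s (hS' hs1)).2.2 hs2
        have h2 := hS'2 s hs1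
        rw [mem_closedBall, dist_eq_norm]
        refine (Complex.norm_le_abs_re_add_abs_im _).trans ?_
        have e1 : (s - c).re = s.re - x := by simp [hc]
        have e2 : (s - c).im = s.im - t := by simp [hc]
        rw [e1, e2]
        linarith)
  refine hcov.trans (le_of_eq ?_)
  have e : ((⌊2 * W / (δ / 2)⌋₊ : ℝ) + 1) = N := rfl
  rw [e, hη]
  field_simp

/-! ### the twisted function to the left -/

/-- the twisted function -/
noncomputable def tv (Q : ℂ[X]) (T : ℝ) (w : ℂ) : ℂ := VV Q T w * Complex.exp ((ell T : ℂ) * (w - 1 / 2))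

lemma tv_an (Q : ℂ[X]) (T : ℝ) : An (tv Q T) := fun w hw => (VV_an Q T w hw).mul (by fun_prop)

lemma tv_norm (Q : ℂ[X]) (T : ℝ) (w : ℂ) : ‖tv Q T w‖ = ‖VV Q T w‖ * Real.exp (ell T * (w.re - 1 / 2)) := by
  unfold tv
  rw [norm_mul, Complex.norm_exp]
  congr 2
  simp

lemma tv_mult (Q : ℂ[X]) (T : ℝ) {w : ℂ} (hw : 0 < w.im) : mult (tv Q T) w = mult (VV Q T) w := by
  unfold mult analyticOrderNatAt
  have h1 : AnalyticAt ℂ (fun w : ℂ => Complex.exp ((ell T : ℂ) * (w - 1 / 2))) w := by fun_prop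
  have h2 : analyticOrderAt (fun w : ℂ => Complex.exp ((ell T : ℂ) * (w - 1 / 2))) w = 0 :=
    h1.analyticOrderAt_eq_zero.2 (Complex.exp_ne_zero _)
  have h3 := analyticOrderAt_mul (VV_an Q T w hw) h1
  rw [h2, add_zero] at h3
  have e : tv Q T = (VV Q T) * (fun w : ℂ => Complex.exp ((ell T : ℂ) * (w - 1 / 2))) := rfl
  rw [e, h3]

lemma tv_zero (Q : ℂ[X]) (T : ℝ) (w : ℂ) : tv Q T w = 0 ↔ VV Q T w = 0 := by
  unfold tv
  simp [Complex.exp_ne_zero]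

/-- comparison with the reflected function -/
lemma tv_close (Q : ℂ[X]) {W : ℝ} (hW : 0 ≤ W) : ∃ T₀ : ℝ, 24 ≤ T₀ ∧ ∀ T : ℝ, T₀ ≤ T → ∀ w s : ℂ,
    s.re = 1 - w.re → s.im = w.im → 3 / 8 ≤ s.re → s.re ≤ 3 → |s.im - T| ≤ W →
      ‖tv Q T w‖ ≤ ‖VV (qt Q) T s‖ + Real.exp (-(1 / 4) * Real.log T) ∧
      ‖VV (qt Q) T s‖ ≤ ‖tv Q T w‖ + Real.exp (-(1 / 4) * Real.log T) := by
  obtain ⟨T₁, h1, h2⟩ := pd_er_small (sh (qt Q)) hW
  obtain ⟨T₂, h3, h4⟩ := cc_small one_pos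
  refine ⟨T₁ + T₂ + W + 1, by linarith, fun T hT w s g1 g2 g3 g4 g5 => ?_⟩
  obtain ⟨hl0, hc, hl⟩ := h4 T (by linarith)
  have e5 := abs_le.1 g5
  have hs : 0 < s.im := by linarith
  have hw : 0 < w.im := by linarith
  set s₀ : ℂ := ⟨1 / 2, s.im⟩ with hs₀
  have hs0re : s₀.re = 1 / 2 := rfl
  have h5 := refl Q T s₀ hs
  have h6 := h2 T (by linarith) s₀ s hs0re g5 g3 g4 g5
  set E := Real.exp (ell T / 2 * (s.re - 1 / 2)) with hE
  have hE0 : 0 < E := Real.exp_pos _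
  have hXX := norm_XX_line hs0re
  have hre : ∀ z : ℂ, ((ell T : ℂ) / 2 * (z - s₀)).re = ell T / 2 * (z.re - 1 / 2) := by
    intro z
    have : (ell T : ℂ) / 2 = ((ell T / 2 : ℝ) : ℂ) := by push_cast; ring
    rw [this, Complex.re_ofReal_mul, Complex.sub_re, hs0re]
  -- the left-hand side
  have hA : ‖rf (pd (sh Q) (cc T : ℂ) (ff T s₀)) s‖ = E * ‖tv Q T w‖ := by
    unfold rf
    have e : 1 - (starRingEnd ℂ) s = w := by
      apply Complex.ext
      · simp [g1]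
      · simp [g2]
    rw [e, RCLike.norm_conj, pd_ff Q hl0 s₀ hw, norm_mul, Complex.norm_exp, hre, tv_norm]
    have e2 : Real.exp (ell T / 2 * (w.re - 1 / 2)) = E * Real.exp (ell T * (w.re - 1 / 2)) := by
      rw [hE, ← Real.exp_add]
      congr 1
      rw [g1]
      ring
    rw [e2]
    ring
  have hB : ‖XX s₀ * pd (sh (qt Q)) (cc T : ℂ) (ff T s₀) s‖ = E * ‖VV (qt Q) T s‖ := by
    rw [norm_mul, hXX, one_mul, pd_ff (qt Q) hl0 s₀ hs, norm_mul, Complex.norm_exp, hre]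
  have h7 : E * ‖tv Q T w‖ ≤ E * ‖VV (qt Q) T s‖ + Real.exp (-(1 / 4) * Real.log T) * E := by
    rw [← hA, ← hB, h5]
    exact (norm_add_le _ _).trans (add_le_add le_rfl h6)
  have h8 : E * ‖VV (qt Q) T s‖ ≤ E * ‖tv Q T w‖ + Real.exp (-(1 / 4) * Real.log T) * E := by
    rw [← hA, ← hB]
    have e : XX s₀ * pd (sh (qt Q)) (cc T : ℂ) (ff T s₀) s =
        rf (pd (sh Q) (cc T : ℂ) (ff T s₀)) s -
          pd (sh (qt Q)) (cc T : ℂ) (er T s₀) s := by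
      rw [h5]; ring
    rw [e]
    exact (norm_sub_le _ _).trans (add_le_add le_rfl h6)
  constructor
  · refine le_of_mul_le_mul_left ?_ hE0
    linarith
  · refine le_of_mul_le_mul_left ?_ hE0
    linarith

/-! ### few zeros imply small values -/

theorem right_V {Q : ℂ[X]} (hQ : Q.coeff 0 ≠ 0) {δ' δ ε W₀ : ℝ} (h1 : 0 < δ') (h2 : δ' ≤ 1 / 4) (hδ : 0 < δ)
    (hδ1 : δ ≤ 1 / 16) (hε : 0 < ε) (hW₀ : 0 ≤ W₀) : ∃ η W T₀ : ℝ, 0 < η ∧ 0 ≤ W ∧ 24 ≤ T₀ ∧ ∀ T : ℝ, T₀ ≤ T →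
      (∀ S : Finset ℂ, (∀ s ∈ S, 1 / 2 + δ' - δ ≤ s.re ∧ |s.im - T| ≤ W) →
        ∑ s ∈ S, (mult (VV Q T) s : ℝ) ≤ η * Real.log T) →
      ∀ s : ℂ, 1 / 2 + δ' ≤ s.re → |s.im - T| ≤ W₀ → ‖VV Q T s‖ ≤ Real.exp (ε * Real.log T) := by
  obtain ⟨a, T₁, ha, hT₁, hfar⟩ := VV_far hQ
  obtain ⟨C, T₂, hC, hT₂, hbdd⟩ := VV_bdd Q
  obtain ⟨T₃, hT₃, hgr⟩ := VV_growth Q (W := W₀ + 2) (by linarith)
  obtain ⟨η, T₄, hη, hT₄, hfs⟩ := few_small (C := C) h1 h2 hδ hδ1 hε ha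
  obtain ⟨T₅, hT₅, hab⟩ := absorb C hε
  refine ⟨η, W₀ + 2, T₁ + T₂ + T₃ + T₄ + T₅ + W₀ + 2, hη, by linarith, by linarith, ?_⟩
  intro T hT hfew s hs1 hs2
  have hL0 : 0 < Real.log T := Real.log_pos (by linarith)
  rcases le_total (5 / 4) s.re with h | h
  · exact (hbdd T (by linarith) s h).trans (hab T (by linarith))
  have e2 := abs_le.1 hs2
  set c : ℂ := ⟨3 / 2, s.im⟩ with hc
  refine hfs T (by linarith) (VV Q T) c ?_ ?_ (hfar T (by linarith) c (by norm_num [hc])) ?_ s ?_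
  · intro z hz
    obtain ⟨c1, c2, c3, c4⟩ := ball_coord hz
    simp only [hc] at c1 c2 c3 c4
    refine ⟨VV_an Q T z (by linarith), (hgr T (by linarith) z (by linarith)
      (by rw [abs_le]; constructor <;> linarith)).trans (Real.exp_le_exp.2 (by linarith))⟩
  · intro z hz
    obtain ⟨c1, c2, c3, c4⟩ := ball_coord hz
    simp only [hc] at c1 c2 c3 c4
    have h3 := hfar T (by linarith) z (by linarith)
    refine ⟨fun h0 => ?_, hbdd T (by linarith) z (by linarith)⟩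
    rw [h0, norm_zero] at h3
    linarith
  · intro S hS
    refine hfew S fun z hz => ?_
    obtain ⟨c1, c2, c3, c4⟩ := ball_coord (hS z hz).1
    simp only [hc] at c1 c2 c3 c4
    exact ⟨by linarith, abs_le.2 ⟨by linarith, by linarith⟩⟩
  · rw [mem_closedBall, dist_eq_norm]
    have : s - c = ((s.re - 3 / 2 : ℝ) : ℂ) := by
      apply Complex.ext <;> simp [hc]
    rw [this, Complex.norm_real, Real.norm_eq_abs, abs_le]
    constructor <;> linarith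

theorem left_V {Q : ℂ[X]} (hQ : (qt Q).coeff 0 ≠ 0) {δ' δ ε W₀ : ℝ} (h1 : 0 < δ') (h2 : δ' ≤ 1 / 4) (hδ : 0 < δ)
    (hδ1 : δ ≤ 1 / 16) (hε : 0 < ε) (hW₀ : 0 ≤ W₀) : ∃ η W T₀ : ℝ, 0 < η ∧ 0 ≤ W ∧ 24 ≤ T₀ ∧ ∀ T : ℝ, T₀ ≤ T →
      (∀ S : Finset ℂ, (∀ s ∈ S, -1 ≤ s.re ∧ s.re ≤ 1 / 2 - δ' + δ ∧ |s.im - T| ≤ W) →
        ∑ s ∈ S, (mult (VV Q T) s : ℝ) ≤ η * Real.log T) →
      ∀ s : ℂ, 1 / 2 + δ' ≤ s.re → |s.im - T| ≤ W₀ → ‖VV (qt Q) T s‖ ≤ Real.exp (ε * Real.log T) := by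
  obtain ⟨a, T₁, ha, hT₁, hfar⟩ := VV_far hQ
  obtain ⟨C, T₂, hC, hT₂, hbdd⟩ := VV_bdd (qt Q)
  obtain ⟨T₃, hT₃, hgr⟩ := VV_growth (qt Q) (W := W₀ + 2) (by linarith)
  obtain ⟨T₆, hT₆, hcl⟩ := tv_close Q (W := W₀ + 2) (by linarith)
  obtain ⟨η, T₄, hη, hT₄, hfs⟩ := few_small (a := a / 2) (C := C + 1) (ε := ε / 2) h1 h2 hδ hδ1 (by positivity)
    (by positivity)
  obtain ⟨T₅, hT₅, hab⟩ := absorb (C + 2) (show 0 < ε / 2 by positivity)
  obtain ⟨T₇, hT₇, hab7⟩ := absorb (4 / a + 1) (show (0 : ℝ) < 1 / 4 by norm_num)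
  obtain ⟨T₈, hT₈, hab8⟩ := absorb 2 one_pos
  refine ⟨η, W₀ + 2, T₁ + T₂ + T₃ + T₄ + T₅ + T₆ + T₇ + T₈ + W₀ + 2, hη, by linarith, by linarith, ?_⟩
  intro T hT hfew s hs1 hs2
  have hL0 : 0 < Real.log T := Real.log_pos (by linarith)
  have hab' := hab T (by linarith)
  rcases le_total (5 / 4) s.re with h | h
  · refine (hbdd T (by linarith) s h).trans ((by linarith : C ≤ C + 2).trans (hab'.trans ?_))
    refine Real.exp_le_exp.2 ?_
    gcongr
    linarith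
  have e2 := abs_le.1 hs2
  -- the error term
  set e := Real.exp (-(1 / 4) * Real.log T) with he
  have he0 : 0 < e := Real.exp_pos _
  have he1 : e < a / 4 ∧ e ≤ 1 := by
    have h3 := hab7 T (by linarith)
    have h4 : e * Real.exp (1 / 4 * Real.log T) = 1 := by
      rw [he, ← Real.exp_add]
      rw [show -(1 / 4) * Real.log T + 1 / 4 * Real.log T = 0 by ring, Real.exp_zero]
    have h5 : e * (4 / a + 1) ≤ 1 := by
      calc e * (4 / a + 1) ≤ e * Real.exp (1 / 4 * Real.log T) := by gcongr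
        _ = 1 := h4
    have h6 : 0 < 4 / a := by positivity
    constructor
    · have h7 : e * (4 / a) < 1 := by nlinarith
      rw [← mul_div_assoc, div_lt_one ha] at h7
      linarith
    · nlinarith
  set c : ℂ := ⟨-(1 / 2), s.im⟩ with hc
  -- comparison on the disc
  have hcmp : ∀ z ∈ closedBall c (1 - δ' + 2 * δ), ∃ z' : ℂ, z'.re = 1 - z.re ∧ z'.im = z.im ∧ 3 / 8 ≤ z'.re ∧
      z'.re ≤ 3 ∧ |z'.im - T| ≤ W₀ + 2 ∧ 0 < z.im ∧ ‖tv Q T z‖ ≤ ‖VV (qt Q) T z'‖ + e ∧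
      ‖VV (qt Q) T z'‖ ≤ ‖tv Q T z‖ + e := by
    intro z hz
    obtain ⟨c1, c2, c3, c4⟩ := ball_coord hz
    simp only [hc] at c1 c2 c3 c4
    have a1 : 3 / 8 ≤ 1 - z.re := by linarith
    have a2 : 1 - z.re ≤ 3 := by linarith
    have a3 : |z.im - T| ≤ W₀ + 2 := by rw [abs_le]; constructor <;> linarith
    obtain ⟨b1, b2⟩ := hcl T (by linarith) z ⟨1 - z.re, z.im⟩ rfl rfl a1 a2 a3
    exact ⟨⟨1 - z.re, z.im⟩, rfl, rfl, a1, a2, a3, by linarith, b1, b2⟩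
  have hmain := hfs T (by linarith) (tv Q T) c ?_ ?_ ?_ ?_ ⟨1 - s.re, s.im⟩ ?_
  · obtain ⟨b1, b2⟩ := hcl T (by linarith) ⟨1 - s.re, s.im⟩ s (by simp) rfl (by linarith) (by linarith)
      (by rw [abs_le]; constructor <;> linarith)
    have h5 : Real.exp (ε / 2 * Real.log T) ≥ 2 := by linarith
    calc ‖VV (qt Q) T s‖ ≤ Real.exp (ε / 2 * Real.log T) + e := b2.trans (by linarith)
      _ ≤ Real.exp (ε / 2 * Real.log T) * Real.exp (ε / 2 * Real.log T) := by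
          nlinarith [he1.2]
      _ = _ := by rw [← Real.exp_add]; congr 1; ring
  · intro z hz
    obtain ⟨z', b1, b2, b3, b4, b5, b6, b7, b8⟩ := hcmp z hz
    refine ⟨tv_an Q T z b6, b7.trans ?_⟩
    have h5 := hgr T (by linarith) z' b3 b5
    have h6 := hab8 T (by linarith)
    calc ‖VV (qt Q) T z'‖ + e ≤ Real.exp (1 * Real.log T) + 1 := add_le_add h5 he1.2
      _ ≤ Real.exp (1 * Real.log T) * Real.exp (1 * Real.log T) := by nlinarith
      _ = _ := by rw [← Real.exp_add]; congr 1; ring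
  · intro z hz
    obtain ⟨c1, c2, c3, c4⟩ := ball_coord hz
    simp only [hc] at c1 c2 c3 c4
    obtain ⟨z', b1, b2, b3, b4, b5, b6, b7, b8⟩ := hcmp z (closedBall_subset_closedBall (by linarith) hz)
    have h3 := hfar T (by linarith) z' (by linarith)
    have h4 := hbdd T (by linarith) z' (by linarith)
    refine ⟨fun h0 => ?_, by linarith [he1.2]⟩
    rw [h0, norm_zero] at b8
    linarith [he1.1]
  · obtain ⟨z', b1, b2, b3, b4, b5, b6, b7, b8⟩ := hcmp c (mem_closedBall_self (by linarith))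
    have h3 := hfar T (by linarith) z' (by rw [b1]; norm_num [hc])
    linarith [he1.1]
  · intro S hS
    have hS' : ∑ w ∈ S, (mult (tv Q T) w : ℝ) = ∑ w ∈ S, (mult (VV Q T) w : ℝ) := by
      refine Finset.sum_congr rfl fun w hw => ?_
      obtain ⟨z', b1, b2, b3, b4, b5, b6, b7, b8⟩ := hcmp w
        (closedBall_subset_closedBall (by linarith) (hS w hw).1)
      rw [tv_mult Q T b6]
    rw [hS']
    refine hfew S fun w hw => ?_
    obtain ⟨c1, c2, c3, c4⟩ := ball_coord (hS w hw).1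
    simp only [hc] at c1 c2 c3 c4
    refine ⟨?_, by linarith, abs_le.2 ⟨by linarith, by linarith⟩⟩
    by_contra hcon
    push Not at hcon
    obtain ⟨z', b1, b2, b3, b4, b5, b6, b7, b8⟩ := hcmp w
      (closedBall_subset_closedBall (by linarith) (hS w hw).1)
    have h3 := hfar T (by linarith) z' (by linarith)
    rw [(hS w hw).2, norm_zero] at b8
    linarith [he1.1]
  · rw [mem_closedBall, dist_eq_norm]
    have : (⟨1 - s.re, s.im⟩ : ℂ) - c = ((3 / 2 - s.re : ℝ) : ℂ) := by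
      apply Complex.ext
      · simp [hc]; ring
      · simp [hc]
    rw [this, Complex.norm_real, Real.norm_eq_abs, abs_le]
    constructor <;> linarith

end Pool.Agent.K7.H52.CF
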