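import Pool.Agent.K7.H52.CF.Refl

/-!
Bounds for `Q(-D / log (T / 2π)) ζ` and the basic inequality.
-/

set_option autoImplicit false

open Polynomial Filter Topology Set Metric

namespace Pool.Agent.K7.H52.CF

open Pool.Agent.K7.H52.SP Pool.Agent.K7.H52.DL H345 H345.Chi

lemma zeta_half : Bd (1 / 4) (1 / 2) riemannZeta := by
  obtain ⟨B, hB, hgr⟩ := zeta_growth (1 / 8)
  have hR := zeta_right (ϑ := 9 / 8) (ε := 1 / 100) (by norm_num) (by norm_num)
  have hL : Ln (-(1 / 8)) (645 / 1000) riemannZeta := by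
    intro W hW
    obtain ⟨T₁, h1, h2⟩ := hR W hW
    obtain ⟨T₂, h3, h4⟩ := fe_window W (show (0 : ℝ) < 1 / 100 by norm_num)
    refine ⟨max T₁ T₂, h1.trans (le_max_left _ _), fun T hT z hz hz2 => ?_⟩
    set s : ℂ := ⟨9 / 8, z.im⟩ with hs
    have h5 := (h4 T ((le_max_right _ _).trans hT) s z (by norm_num [hs]) (by norm_num [hs]) hz2
      (by rw [hz]; norm_num [hs]) rfl).1
    have h6 := h2 T ((le_max_left _ _).trans hT) s le_rfl hz2
    have h7 : s.re = 9 / 8 := rfl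
    rw [h7] at h5
    calc ‖riemannZeta z‖ ≤ Real.exp ((9 / 8 - 1 / 2 + 1 / 100) * Real.log T) * ‖riemannZeta s‖ := h5
      _ ≤ Real.exp ((9 / 8 - 1 / 2 + 1 / 100) * Real.log T) * Real.exp (1 / 100 * Real.log T) := by gcongr
      _ = _ := by rw [← Real.exp_add]; congr 1; ring
  have h := pl (F := riemannZeta) (a := -(1 / 8)) (X := 9 / 8) (H := 0) (B := B) (α := 645 / 1000) (β := 1 / 100)
    (by norm_num) (fun z _ hz => (zeta_an (ne_one_of_im' hz)).differentiableAt) hgr hL hR (by norm_num)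
    (x := 1 / 4) (ε := 1 / 100) (by norm_num) (by norm_num) (by norm_num)
  exact h.mono le_rfl (by norm_num)

lemma pd_boundX (P : ℂ[X]) {r : ℝ} (hr : 0 < r) : ∃ K : ℝ, 1 ≤ K ∧ ∀ c : ℂ, ‖c‖ ≤ 1 → ∀ (g : ℂ → ℂ) (s : ℂ) (M : ℝ),
    (∀ z ∈ closedBall s r, AnalyticAt ℂ g z ∧ ‖g z‖ ≤ M) → ‖pd (X * P) c g s‖ ≤ K * (‖c‖ * M) := by
  induction P using Polynomial.induction_on' with
  | add p q hp hq =>
    obtain ⟨K, hK, h⟩ := hp
    obtain ⟨K', hK', h'⟩ := hq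
    refine ⟨K + K', by linarith, fun c hc g s M hM => ?_⟩
    rw [mul_add, pd_add, add_mul]
    exact (norm_add_le _ _).trans (add_le_add (h c hc g s M hM) (h' c hc g s M hM))
  | monomial n a =>
    refine ⟨max 1 (‖a‖ * ((n + 1).factorial / r ^ (n + 1))), le_max_left _ _, fun c hc g s M hM => ?_⟩
    have hM0 : 0 ≤ M := (norm_nonneg _).trans (hM s (mem_closedBall_self hr.le)).2
    rw [X_mul_monomial, pd_monomial, norm_mul, norm_mul, norm_pow]
    have h1 : ‖iteratedDeriv (n + 1) g s‖ ≤ (n + 1).factorial * M / r ^ (n + 1) := by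
      refine Complex.norm_iteratedDeriv_le_of_forall_mem_sphere_norm_le (n + 1) hr ?_ ?_
      · apply DifferentiableOn.diffContOnCl
        intro z hz
        exact (hM z (closure_ball_subset_closedBall hz)).1.differentiableAt.differentiableWithinAt
      · intro z hz
        exact (hM z (sphere_subset_closedBall hz)).2
    have h2 : ‖c‖ ^ (n + 1) ≤ ‖c‖ := by
      rw [pow_succ]
      have := pow_le_one₀ (n := n) (norm_nonneg c) hc
      nlinarith [norm_nonneg c]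
    calc ‖a‖ * (‖c‖ ^ (n + 1) * ‖iteratedDeriv (n + 1) g s‖)
        ≤ ‖a‖ * (‖c‖ * ((n + 1).factorial * M / r ^ (n + 1))) := by gcongr
      _ = (‖a‖ * ((n + 1).factorial / r ^ (n + 1))) * (‖c‖ * M) := by ring
      _ ≤ _ := by
          gcongr
          exact le_max_right _ _

lemma cc_small {η : ℝ} (hη : 0 < η) : ∃ T₀ : ℝ, 24 ≤ T₀ ∧ ∀ T : ℝ, T₀ ≤ T → ell T ≠ 0 ∧ ‖(cc T : ℂ)‖ ≤ η ∧ 0 < ell T := by
  obtain ⟨T₀, h1, h2⟩ := ell_large (1 / η)
  refine ⟨T₀, h1, fun T hT => ?_⟩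
  have h3 := h2 T hT
  have h4 : 0 < 1 / η := by positivity
  have h5 : 0 < ell T := by linarith
  refine ⟨h5.ne', ?_, h5⟩
  unfold cc
  rw [Complex.norm_real, Real.norm_eq_abs, abs_neg, abs_of_pos (by positivity)]
  rw [div_le_iff₀ h5]
  rw [div_le_iff₀ hη] at h3
  linarith

/-- growth -/
lemma VV_growth (Q : ℂ[X]) {W : ℝ} (hW : 0 ≤ W) : ∃ T₀ : ℝ, 24 ≤ T₀ ∧ ∀ T : ℝ, T₀ ≤ T → ∀ s : ℂ,
    3 / 8 ≤ s.re → |s.im - T| ≤ W → ‖VV Q T s‖ ≤ Real.exp (1 * Real.log T) := by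
  obtain ⟨K, hK, hb⟩ := pd_bound Q (r := 1 / 8) (by norm_num)
  obtain ⟨T₁, h1, h2⟩ := zeta_half (W + 1) (by linarith)
  obtain ⟨T₂, h3, h4⟩ := cc_small one_pos
  obtain ⟨T₃, h5, h6⟩ := absorb K (show (0 : ℝ) < 1 / 2 by norm_num)
  refine ⟨T₁ + T₂ + T₃ + W + 2, by linarith, fun T hT s hs1 hs2 => ?_⟩
  have e2 := abs_le.1 hs2
  obtain ⟨_, hc, _⟩ := h4 T (by linarith)
  have h7 := hb _ hc riemannZeta s (Real.exp (1 / 2 * Real.log T)) (fun z hz => by
    obtain ⟨c1, c2, c3, c4⟩ := ball_coord hz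
    exact ⟨zeta_an (ne_one_of_im' (by linarith)), h2 T (by linarith) z (by linarith)
      (by rw [abs_le]; constructor <;> linarith)⟩)
  unfold VV
  calc ‖pd Q (cc T : ℂ) riemannZeta s‖ ≤ K * Real.exp (1 / 2 * Real.log T) := h7
    _ ≤ Real.exp (1 / 2 * Real.log T) * Real.exp (1 / 2 * Real.log T) := by
        gcongr
        exact h6 T (by linarith)
    _ = _ := by rw [← Real.exp_add]; congr 1; ring

/-- far to the right -/
lemma VV_bdd (Q : ℂ[X]) : ∃ C T₀ : ℝ, 1 ≤ C ∧ 24 ≤ T₀ ∧ ∀ T : ℝ, T₀ ≤ T → ∀ s : ℂ, 5 / 4 ≤ s.re →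
    ‖VV Q T s‖ ≤ C := by
  obtain ⟨K, hK, hb⟩ := pd_bound Q (r := 1 / 8) (by norm_num)
  obtain ⟨A, hA1, hA⟩ := DH31.zeta_bounds (a := 9 / 8) (by norm_num)
  obtain ⟨T₂, h3, h4⟩ := cc_small one_pos
  refine ⟨K * A, T₂, by nlinarith, h3, fun T hT s hs1 => ?_⟩
  obtain ⟨_, hc, _⟩ := h4 T (by linarith)
  exact hb _ hc riemannZeta s A (fun z hz => by
    obtain ⟨c1, c2, c3, c4⟩ := ball_coord hz
    exact ⟨zeta_an (ne_one_of_re' (by linarith)), (hA z (by linarith)).1⟩)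

lemma VV_far {Q : ℂ[X]} (hQ : Q.coeff 0 ≠ 0) : ∃ a T₀ : ℝ, 0 < a ∧ 24 ≤ T₀ ∧ ∀ T : ℝ, T₀ ≤ T → ∀ s : ℂ, 5 / 4 ≤ s.re →
    a ≤ ‖VV Q T s‖ := by
  obtain ⟨K, hK, hb⟩ := pd_boundX Q.divX (r := 1 / 8) (by norm_num)
  obtain ⟨A, hA1, hA⟩ := DH31.zeta_bounds (a := 9 / 8) (by norm_num)
  set q : ℝ := ‖Q.coeff 0‖ with hq
  have hq0 : 0 < q := norm_pos_iff.2 hQ
  have hA0 : 0 < A := by linarith
  obtain ⟨T₁, h1, h2⟩ := cc_small one_pos
  obtain ⟨T₂, h3, h4⟩ := cc_small (η := q / (2 * A * (K * A))) (by positivity)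
  refine ⟨q / (2 * A), max T₁ T₂, by positivity, h1.trans (le_max_left _ _), fun T hT s hs1 => ?_⟩
  obtain ⟨_, hc1, _⟩ := h2 T ((le_max_left _ _).trans hT)
  obtain ⟨_, hc2, _⟩ := h4 T ((le_max_right _ _).trans hT)
  have h5 := hb _ hc1 riemannZeta s A (fun z hz => by
    obtain ⟨c1, c2, c3, c4⟩ := ball_coord hz
    exact ⟨zeta_an (ne_one_of_re' (by linarith)), (hA z (by linarith)).1⟩)
  have h6 : VV Q T s = pd (X * Q.divX) (cc T : ℂ) riemannZeta s +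
      Q.coeff 0 * riemannZeta s := by
    unfold VV
    have e : Q = X * Q.divX + C (Q.coeff 0) := by
      rw [mul_comm]
      exact (Polynomial.divX_mul_X_add Q).symm
    nth_rewrite 1 [e]
    rw [pd_add, pd_C]
  have h7 : q * (1 / A) ≤ ‖Q.coeff 0 * riemannZeta s‖ := by
    rw [norm_mul]
    have := (hA s (by linarith)).2
    gcongr
  have h8 : K * (‖(cc T : ℂ)‖ * A) ≤ q / (2 * A) := by
    calc K * (‖(cc T : ℂ)‖ * A) ≤ K * (q / (2 * A * (K * A)) * A) := by gcongr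
      _ = q / (2 * A) := by
          have hK0 : 0 < K := by linarith
          field_simp
  have h9 : ‖Q.coeff 0 * riemannZeta s‖ ≤ ‖VV Q T s‖ + ‖pd (X * Q.divX) (cc T : ℂ) riemannZeta s‖ := by
    have e : Q.coeff 0 * riemannZeta s = VV Q T s - pd (X * Q.divX) (cc T : ℂ) riemannZeta s := by
      rw [h6]; ring
    rw [e]
    exact norm_sub_le _ _
  have h10 : q * (1 / A) = q / (2 * A) + q / (2 * A) := by field_simp; ring
  linarith

/-! ### the error in the reflection -/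

/-- the error -/
noncomputable def er (T : ℝ) (s₀ s : ℂ) : ℂ := rf (ff T s₀) s + (-(XX s₀)) * ff T s₀ s

lemma er_an (T : ℝ) (s₀ : ℂ) : An (er T s₀) := fun s hs =>
  ((ff_an T s₀).rf s hs).add (analyticAt_const.mul (ff_an T s₀ s hs))

lemma er_small {W : ℝ} (hW : 0 ≤ W) : ∃ T₀ : ℝ, 24 ≤ T₀ ∧ ∀ T : ℝ, T₀ ≤ T → ∀ s₀ s : ℂ,
    s₀.re = 1 / 2 → |s₀.im - T| ≤ W → 1 / 4 ≤ s.re → s.re ≤ 4 → |s.im - T| ≤ W →
      ‖er T s₀ s‖ ≤ Real.exp (-(3 / 8) * Real.log T) * Real.exp (ell T / 2 * (s.re - 1 / 2)) := by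
  obtain ⟨C, T₁, hC, h1, h2⟩ := EE_close hW
  obtain ⟨T₂, h3, h4⟩ := zeta_half W hW
  obtain ⟨T₃, h5, h6⟩ := absorb C (show (0 : ℝ) < 1 / 8 by norm_num)
  refine ⟨T₁ + T₂ + T₃ + W, by linarith, fun T hT s₀ s g1 g2 g3 g4 g5 => ?_⟩
  have hT0 : 0 < T := by linarith
  have e5 := abs_le.1 g5
  have him : 0 < s.im := by linarith
  have e : er T s₀ s = (EE T s₀ s - XX s₀) * ff T s₀ s := by
    unfold er
    rw [rf_ff T g1 him]
    ring
  rw [e, norm_mul, norm_ff T g1]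
  have b1 := h2 T (by linarith) s₀ s g1 g2 (by linarith) g4 g5
  have b2 := h4 T (by linarith) s g3 g5
  have b3 := h6 T (by linarith)
  have b4 : C / T ≤ Real.exp (-(7 / 8) * Real.log T) := by
    rw [div_le_iff₀ hT0]
    have : Real.exp (-(7 / 8) * Real.log T) * T = Real.exp (1 / 8 * Real.log T) := by
      nth_rewrite 2 [← Real.exp_log hT0]
      rw [← Real.exp_add]
      congr 1
      ring
    rw [this]
    exact b3
  calc ‖EE T s₀ s - XX s₀‖ * (Real.exp (ell T / 2 * (s.re - 1 / 2)) * ‖riemannZeta s‖)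
      ≤ Real.exp (-(7 / 8) * Real.log T) * (Real.exp (ell T / 2 * (s.re - 1 / 2)) * Real.exp (1 / 2 * Real.log T)) := by
        gcongr
        exact b1.trans b4
    _ = (Real.exp (-(7 / 8) * Real.log T) * Real.exp (1 / 2 * Real.log T)) * Real.exp (ell T / 2 * (s.re - 1 / 2)) := by
        ring
    _ = _ := by
        rw [← Real.exp_add]
        congr 2
        ring

/-- the reflection formula with its error -/
lemma refl (Q : ℂ[X]) (T : ℝ) (s₀ : ℂ) {s : ℂ} (hs : 0 < s.im) :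
    rf (pd (sh Q) (cc T : ℂ) (ff T s₀)) s =
      XX s₀ * pd (sh (qt Q)) (cc T : ℂ) (ff T s₀) s +
      pd (sh (qt Q)) (cc T : ℂ) (er T s₀) s := by
  rw [rf_pd_ff Q T s₀ hs]
  have e : ∀ z : ℂ, 0 < z.im → rf (ff T s₀) z = XX s₀ * ff T s₀ z + er T s₀ z := by
    intro z _
    unfold er
    ring
  have hx : An fun z => XX s₀ * ff T s₀ z := fun z hz => analyticAt_const.mul (ff_an T s₀ z hz)
  rw [pd_congr _ _ e hs, pd_fun_add _ _ hx (er_an T s₀) hs, pd_fun_const_mul _ _ _ (ff_an T s₀) hs]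

/-- the error, after the operator -/
lemma pd_er_small (P : ℂ[X]) {W : ℝ} (hW : 0 ≤ W) : ∃ T₀ : ℝ, 24 ≤ T₀ ∧ ∀ T : ℝ, T₀ ≤ T → ∀ s₀ s : ℂ,
    s₀.re = 1 / 2 → |s₀.im - T| ≤ W → 3 / 8 ≤ s.re → s.re ≤ 3 → |s.im - T| ≤ W →
      ‖pd P (cc T : ℂ) (er T s₀) s‖ ≤ Real.exp (-(1 / 4) * Real.log T) * Real.exp (ell T / 2 * (s.re - 1 / 2)) := by
  obtain ⟨K, hK, hb⟩ := pd_bound P (r := 1 / 8) (by norm_num)
  obtain ⟨T₁, h1, h2⟩ := er_small (W := W + 1) (by linarith)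
  obtain ⟨T₂, h3, h4⟩ := cc_small one_pos
  obtain ⟨T₃, h5, h6⟩ := absorb K (show (0 : ℝ) < 1 / 16 by norm_num)
  refine ⟨T₁ + T₂ + T₃ + W + 1, by linarith, fun T hT s₀ s g1 g2 g3 g4 g5 => ?_⟩
  have hL0 : 0 < Real.log T := Real.log_pos (by linarith)
  obtain ⟨_, hc, hl⟩ := h4 T (by linarith)
  have e5 := abs_le.1 g5
  have h7 := hb _ hc (er T s₀) s (Real.exp (-(3 / 8) * Real.log T) * Real.exp (ell T / 2 * (s.re + 1 / 8 - 1 / 2)))
    (fun z hz => by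
      obtain ⟨c1, c2, c3, c4⟩ := ball_coord hz
      refine ⟨er_an T s₀ z (by linarith), (h2 T (by linarith) s₀ z g1 (g2.trans (by linarith)) (by linarith) (by linarith)
        (by rw [abs_le]; constructor <;> linarith)).trans ?_⟩
      gcongr)
  have h8 := h6 T (by linarith)
  have hle := ell_le (T := T) (by linarith)
  refine h7.trans ?_
  calc K * (Real.exp (-(3 / 8) * Real.log T) * Real.exp (ell T / 2 * (s.re + 1 / 8 - 1 / 2)))
      ≤ Real.exp (1 / 16 * Real.log T) * (Real.exp (-(3 / 8) * Real.log T) *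
        Real.exp (ell T / 2 * (s.re + 1 / 8 - 1 / 2))) := by gcongr
    _ = Real.exp (1 / 16 * Real.log T + (-(3 / 8) * Real.log T) + ell T / 16) * Real.exp (ell T / 2 * (s.re - 1 / 2)) := by
        rw [← Real.exp_add, ← Real.exp_add, ← Real.exp_add]
        congr 1
        ring
    _ ≤ Real.exp (-(1 / 4) * Real.log T) * Real.exp (ell T / 2 * (s.re - 1 / 2)) := by
        gcongr
        linarith

/-- the basic inequality -/
theorem core {Q A B G : ℂ[X]} (hG : A * Q + B * qt Q = G) {r : ℝ} (hr : 0 < r) (hr1 : r ≤ 1 / 16) {W : ℝ} (hW : 0 ≤ W) :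
    ∃ K T₀ : ℝ, 1 ≤ K ∧ 24 ≤ T₀ ∧ ∀ T : ℝ, T₀ ≤ T → ∀ s₀ : ℂ, s₀.re = 1 / 2 → |s₀.im - T| ≤ W → ∀ M : ℝ,
      (∀ s ∈ closedBall s₀ (2 * r), ‖VV Q T s‖ ≤ M) →
        ‖VV G T s₀‖ ≤ K * (Real.exp (r * Real.log T) * M + 1) := by
  obtain ⟨K₁, hK₁, hb₁⟩ := pd_bound (sh A) hr
  obtain ⟨K₂, hK₂, hb₂⟩ := pd_bound (sh B) hr
  obtain ⟨T₁, h1, h2⟩ := pd_er_small (sh (qt Q)) (W := W + 1) (by linarith)
  obtain ⟨T₂, h3, h4⟩ := cc_small one_pos
  refine ⟨K₁ + K₂, T₁ + T₂ + W + 1, by linarith, by linarith, fun T hT s₀ g1 g2 M hM => ?_⟩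
  have hL0 : 0 < Real.log T := Real.log_pos (by linarith)
  obtain ⟨hl0, hc, hl⟩ := h4 T (by linarith)
  have hle := ell_le (T := T) (by linarith)
  have e2 := abs_le.1 g2
  set c : ℂ := (cc T : ℂ) with hcdef
  set Qs := sh Q with hQs
  set Qr := sh (qt Q) with hQr
  set As := sh A with hAs
  set Bs := sh B with hBs
  have hM0 : 0 ≤ M := (norm_nonneg _).trans (hM s₀ (mem_closedBall_self (by linarith)))
  have him0 : 0 < s₀.im := by linarith
  have hball : ∀ z ∈ closedBall s₀ (2 * r), 3 / 8 ≤ z.re ∧ z.re ≤ 1 / 2 + 2 * r ∧ |z.im - T| ≤ W + 1 ∧ 0 < z.im := by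
    intro z hz
    obtain ⟨c1, c2, c3, c4⟩ := ball_coord hz
    rw [g1] at c1 c2
    refine ⟨by linarith, by linarith, by rw [abs_le]; constructor <;> linarith, by linarith⟩
  -- bound for `G₁`
  have hG1 : ∀ z ∈ closedBall s₀ (2 * r), ‖pd Qs c (ff T s₀) z‖ ≤ Real.exp (r * Real.log T) * M := by
    intro z hz
    obtain ⟨c1, c2, c3, c4⟩ := hball z hz
    rw [pd_ff Q hl0 s₀ c4, norm_mul, Complex.norm_exp]
    have e : ((ell T : ℂ) / 2 * (z - s₀)).re = ell T / 2 * (z.re - 1 / 2) := by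
      have : (ell T : ℂ) / 2 = ((ell T / 2 : ℝ) : ℂ) := by push_cast; ring
      rw [this, Complex.re_ofReal_mul, Complex.sub_re, g1]
    rw [e]
    have h5 := hM z hz
    have h6 : ell T / 2 * (z.re - 1 / 2) ≤ r * Real.log T := by
      have : ell T / 2 * (z.re - 1 / 2) ≤ ell T / 2 * (2 * r) := by
        gcongr
        linarith
      nlinarith
    gcongr
  -- bound for the reflection
  have hrf : ∀ z ∈ closedBall s₀ (2 * r), ‖rf (pd Qs c (ff T s₀)) z‖ ≤ Real.exp (r * Real.log T) * M := by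
    intro z hz
    unfold rf
    rw [RCLike.norm_conj]
    apply hG1
    rw [mem_closedBall, dist_eq_norm] at hz ⊢
    have e : 1 - (starRingEnd ℂ) z - s₀ = -(starRingEnd ℂ) (z - s₀) := by
      apply Complex.ext
      · simp [g1]; ring
      · simp; ring
    rw [e, norm_neg, RCLike.norm_conj]
    exact hz
  have hXX := norm_XX_line g1
  have hqt : ∀ z ∈ closedBall s₀ r, ‖pd Qr c (ff T s₀) z‖ ≤ Real.exp (r * Real.log T) * M + 1 := by
    intro z hz
    have hz2 : z ∈ closedBall s₀ (2 * r) := closedBall_subset_closedBall (by linarith) hz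
    obtain ⟨c1, c2, c3, c4⟩ := hball z hz2
    have h5 := refl Q T s₀ c4
    have h6 := h2 T (by linarith) s₀ z g1 (g2.trans (by linarith)) c1 (by linarith) c3
    have h7 : ‖pd Qr c (ff T s₀) z‖ = ‖XX s₀ * pd Qr c (ff T s₀) z‖ := by rw [norm_mul, hXX, one_mul]
    have h8 : XX s₀ * pd Qr c (ff T s₀) z = rf (pd Qs c (ff T s₀)) z - pd Qr c (er T s₀) z := by
      rw [h5]; ring
    rw [h7, h8]
    refine (norm_sub_le _ _).trans (add_le_add (hrf z hz2) (h6.trans ?_))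
    rw [← Real.exp_add, Real.exp_le_one_iff]
    have h9 : ell T / 2 * (z.re - 1 / 2) ≤ ell T / 2 * (1 / 8) := by
      gcongr
      linarith
    nlinarith
  -- the identity of Bezout
  have hbez : VV G T s₀ = pd As c (pd Qs c (ff T s₀)) s₀ + pd Bs c (pd Qr c (ff T s₀)) s₀ := by
    have e1 : VV G T s₀ = pd (sh G) c (ff T s₀) s₀ := by
      rw [pd_ff G hl0 s₀ him0, sub_self, mul_zero, Complex.exp_zero, one_mul]
    have e2 : sh G = As * Qs + Bs * Qr := by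
      rw [← hG, hAs, hQs, hBs, hQr]
      unfold sh
      rw [add_comp, mul_comp, mul_comp]
    rw [e1, e2, pd_add, pd_mul _ _ _ (ff_an T s₀) him0, pd_mul _ _ _ (ff_an T s₀) him0]
  have hN0 : 0 ≤ Real.exp (r * Real.log T) * M := by positivity
  rw [hbez]
  refine (norm_add_le _ _).trans ?_
  rw [add_mul]
  refine add_le_add ?_ ?_
  · refine (hb₁ c hc _ s₀ (Real.exp (r * Real.log T) * M) fun z hz => ?_).trans ?_
    · have hz2 : z ∈ closedBall s₀ (2 * r) := closedBall_subset_closedBall (by linarith) hz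
      exact ⟨(ff_an T s₀).pd _ _ z (hball z hz2).2.2.2, hG1 z hz2⟩
    · have : 0 ≤ K₁ := by linarith
      gcongr
      linarith
  · refine hb₂ c hc _ s₀ _ fun z hz => ?_
    have hz2 : z ∈ closedBall s₀ (2 * r) := closedBall_subset_closedBall (by linarith) hz
    exact ⟨(ff_an T s₀).pd _ _ z (hball z hz2).2.2.2, hqt z hz⟩

end Pool.Agent.K7.H52.CF
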