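import Pool.Agent.K7.H52.CF.Bk

/-!
The law for large values and the exact criterion.
-/

set_option autoImplicit false

open Polynomial Filter Topology Set Metric

namespace Pool.Agent.K7.H52.CF

open Pool.Agent.K7.H52.SP Pool.Agent.K7.H52.DL H345 H345.Chi H370 H370.Loc

/-- from the right of the line to its left -/
lemma ball_V (Q : ℂ[X]) {r ε W₀ : ℝ} (hr : 0 < r) (hr1 : r ≤ 1 / 16) (hε : 0 < ε) (_hε1 : ε ≤ 1) (hW₀ : 0 ≤ W₀) :
    ∃ W T₀ : ℝ, 0 ≤ W ∧ 24 ≤ T₀ ∧ ∀ T : ℝ, T₀ ≤ T →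
      (∀ s : ℂ, 1 / 2 + r ≤ s.re → |s.im - T| ≤ W → ‖VV Q T s‖ ≤ Real.exp (ε * Real.log T)) →
      ∀ s : ℂ, 1 / 2 - 2 * r ≤ s.re → |s.im - T| ≤ W₀ → ‖VV Q T s‖ ≤ Real.exp ((24 * r + 2 * ε) * Real.log T) := by
  obtain ⟨Wl, hWl, hltl⟩ := ltl (a := 3 / 8) (b := 1 / 2 + r) (α := 1) (β := ε) (B := 1) (ε := ε) (by linarith)
    zero_le_one hε
  obtain ⟨T₁, hT₁, hgr⟩ := VV_growth Q (W := W₀ + Wl) (by linarith)
  refine ⟨W₀ + Wl, T₁ + W₀ + Wl + 1, by linarith, by linarith, ?_⟩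
  intro T hT hsm s hs1 hs2
  have hL0 : 0 < Real.log T := Real.log_pos (by linarith)
  have e2 := abs_le.1 hs2
  have hwin : ∀ w : ℂ, |w.im - s.im| ≤ Wl → |w.im - T| ≤ W₀ + Wl := by
    intro w hw
    have := abs_le.1 hw
    rw [abs_le]
    constructor <;> linarith
  rcases le_total (1 / 2 + r) s.re with h | h
  · refine (hsm s h (hs2.trans (by linarith))).trans (Real.exp_le_exp.2 ?_)
    gcongr
    linarith
  · have h3 := hltl (Real.log T) hL0.le (VV Q T) s.im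
      (fun w _ _ hw => (VV_an Q T w (by
        have := abs_le.1 (hwin w hw)
        linarith)).differentiableAt)
      (fun w hw1 _ hw => hgr T (by linarith) w hw1 (hwin w hw))
      (fun w hw1 hw => hgr T (by linarith) w hw1.ge (hwin w hw))
      (fun w hw1 hw => hsm w hw1.ge (hwin w hw)) s (by linarith) h rfl
    refine h3.trans (Real.exp_le_exp.2 (mul_le_mul_of_nonneg_right ?_ hL0.le))
    have hd : 0 < 1 / 2 + r - 3 / 8 := by linarith
    set x := (s.re - 3 / 8) / (1 / 2 + r - 3 / 8) with hx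
    have hx1 : 1 - x ≤ 24 * r := by
      have : 1 - x = (1 / 2 + r - s.re) / (1 / 2 + r - 3 / 8) := by
        rw [hx, eq_div_iff hd.ne', sub_mul, div_mul_cancel₀ _ hd.ne']
        ring
      rw [this, div_le_iff₀ hd]
      nlinarith
    have hx0 : x ≤ 1 := by rw [hx, div_le_one hd]; linarith
    nlinarith

/-- from the right of the line to the operator `G` on the line -/
lemma line_of_V {Q A B G : ℂ[X]} (hG : A * Q + B * qt Q = G) {κ W₀ : ℝ} (hκ : 0 < κ) (hW₀ : 0 ≤ W₀) :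
    ∃ r ε W T₀ : ℝ, 0 < r ∧ r ≤ 1 / 16 ∧ 0 < ε ∧ 0 ≤ W ∧ 24 ≤ T₀ ∧ ∀ T : ℝ, T₀ ≤ T →
      (∀ s : ℂ, 1 / 2 + r ≤ s.re → |s.im - T| ≤ W → ‖VV Q T s‖ ≤ Real.exp (ε * Real.log T)) →
      ∀ s₀ : ℂ, s₀.re = 1 / 2 → |s₀.im - T| ≤ W₀ → ‖VV G T s₀‖ ≤ Real.exp (κ * Real.log T) := by
  set r : ℝ := min (κ / 100) (1 / 16) with hr
  have hr0 : 0 < r := lt_min (by positivity) (by norm_num)
  have hr1 : r ≤ 1 / 16 := min_le_right _ _
  have hr2 : r ≤ κ / 100 := min_le_left _ _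
  set ε : ℝ := min (κ / 8) 1 with hε
  have hε0 : 0 < ε := lt_min (by positivity) one_pos
  have hε1 : ε ≤ 1 := min_le_right _ _
  have hε2 : ε ≤ κ / 8 := min_le_left _ _
  obtain ⟨W, T₁, hW, hT₁, hball⟩ := ball_V Q hr0 hr1 hε0 hε1 (W₀ := W₀ + 1) (by linarith)
  obtain ⟨K, T₂, hK, hT₂, hcore⟩ := core hG hr0 hr1 hW₀
  obtain ⟨T₃, hT₃, hab⟩ := absorb (2 * K) (show 0 < κ / 4 by positivity)
  refine ⟨r, ε, W, T₁ + T₂ + T₃, hr0, hr1, hε0, hW, by linarith, ?_⟩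
  intro T hT hsm s₀ g1 g2
  have hL0 : 0 < Real.log T := Real.log_pos (by linarith)
  have e2 := abs_le.1 g2
  have h1 := hcore T (by linarith) s₀ g1 g2 (Real.exp ((24 * r + 2 * ε) * Real.log T)) (fun s hs => by
    obtain ⟨c1, c2, c3, c4⟩ := ball_coord hs
    exact hball T (by linarith) hsm s (by linarith) (by rw [abs_le]; constructor <;> linarith))
  have h2 : Real.exp (r * Real.log T) * Real.exp ((24 * r + 2 * ε) * Real.log T) + 1 ≤
      2 * Real.exp (κ / 2 * Real.log T) := by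
    rw [← Real.exp_add]
    have h3 : Real.exp (r * Real.log T + (24 * r + 2 * ε) * Real.log T) ≤ Real.exp (κ / 2 * Real.log T) := by
      refine Real.exp_le_exp.2 ?_
      rw [← add_mul]
      refine mul_le_mul_of_nonneg_right ?_ hL0.le
      linarith
    have h4 : 1 ≤ Real.exp (κ / 2 * Real.log T) := Real.one_le_exp (by positivity)
    linarith
  calc ‖VV G T s₀‖ ≤ K * (2 * Real.exp (κ / 2 * Real.log T)) := h1.trans (by gcongr)
    _ = (2 * K) * Real.exp (κ / 2 * Real.log T) := by ring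
    _ ≤ Real.exp (κ / 4 * Real.log T) * Real.exp (κ / 2 * Real.log T) := by
        gcongr
        exact hab T (by linarith)
    _ = Real.exp (κ / 4 * Real.log T + κ / 2 * Real.log T) := by rw [Real.exp_add]
    _ ≤ Real.exp (κ * Real.log T) := by
        refine Real.exp_le_exp.2 ?_
        rw [← add_mul]
        refine mul_le_mul_of_nonneg_right ?_ hL0.le
        linarith

/-- few zeros to the right -/
theorem small_right {Q A B G : ℂ[X]} (hG : A * Q + B * qt Q = G) (hQ : Q.coeff 0 ≠ 0) {κ W₀ : ℝ} (hκ : 0 < κ)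
    (hW₀ : 0 ≤ W₀) : ∃ δ η W T₀ : ℝ, 0 < δ ∧ 0 < η ∧ 0 ≤ W ∧ 24 ≤ T₀ ∧ ∀ T : ℝ, T₀ ≤ T →
      (∀ S : Finset ℂ, (∀ s ∈ S, 1 / 2 + δ ≤ s.re ∧ |s.im - T| ≤ W) →
        ∑ s ∈ S, (mult (VV Q T) s : ℝ) ≤ η * Real.log T) →
      ∀ s₀ : ℂ, s₀.re = 1 / 2 → |s₀.im - T| ≤ W₀ → ‖VV G T s₀‖ ≤ Real.exp (κ * Real.log T) := by
  obtain ⟨r, ε, W₁, T₁, hr, hr1, hε, hW₁, hT₁, h1⟩ := line_of_V hG hκ hW₀
  obtain ⟨η, W, T₂, hη, hW, hT₂, h2⟩ := right_V hQ (δ' := r) (δ := r / 2) (ε := ε) (W₀ := W₁) hr (by linarith)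
    (by positivity) (by linarith) hε hW₁
  refine ⟨r / 2, η, W, max T₁ T₂, by positivity, hη, hW, hT₁.trans (le_max_left _ _), ?_⟩
  intro T hT hfew
  refine h1 T ((le_max_left _ _).trans hT) (h2 T ((le_max_right _ _).trans hT) fun S hS => hfew S fun s hs => ?_)
  obtain ⟨c1, c2⟩ := hS s hs
  exact ⟨by linarith, c2⟩

/-- few zeros to the left -/
theorem small_left {Q A B G : ℂ[X]} (hG : A * Q + B * qt Q = G) (hQ : (qt Q).coeff 0 ≠ 0) {κ W₀ : ℝ} (hκ : 0 < κ)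
    (hW₀ : 0 ≤ W₀) : ∃ δ η W T₀ : ℝ, 0 < δ ∧ 0 < η ∧ 0 ≤ W ∧ 24 ≤ T₀ ∧ ∀ T : ℝ, T₀ ≤ T →
      (∀ S : Finset ℂ, (∀ s ∈ S, -1 ≤ s.re ∧ s.re ≤ 1 / 2 - δ ∧ |s.im - T| ≤ W) →
        ∑ s ∈ S, (mult (VV Q T) s : ℝ) ≤ η * Real.log T) →
      ∀ s₀ : ℂ, s₀.re = 1 / 2 → |s₀.im - T| ≤ W₀ → ‖VV G T s₀‖ ≤ Real.exp (κ * Real.log T) := by
  have hG' : B * qt Q + A * qt (qt Q) = G := by rw [qt_qt, ← hG]; ring
  obtain ⟨r, ε, W₁, T₁, hr, hr1, hε, hW₁, hT₁, h1⟩ := line_of_V hG' hκ hW₀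
  obtain ⟨η, W, T₂, hη, hW, hT₂, h2⟩ := left_V hQ (δ' := r) (δ := r / 2) (ε := ε) (W₀ := W₁) hr (by linarith)
    (by positivity) (by linarith) hε hW₁
  refine ⟨r / 2, η, W, max T₁ T₂, by positivity, hη, hW, hT₁.trans (le_max_left _ _), ?_⟩
  intro T hT hfew
  refine h1 T ((le_max_left _ _).trans hT) (h2 T ((le_max_right _ _).trans hT) fun S hS => hfew S fun s hs => ?_)
  obtain ⟨c1, c2, c3⟩ := hS s hs
  exact ⟨c1, by linarith, c3⟩

/-! ### the converse -/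

/-- `G(-D / log (T / 2π)) ζ` is small on the critical line near height `T` -/
def SL (G : ℂ[X]) : Prop := ∀ ε W : ℝ, 0 < ε → 0 ≤ W → ∃ T₀ : ℝ, ∀ T : ℝ, T₀ ≤ T → ∀ s : ℂ, s.re = 1 / 2 →
  |s.im - T| ≤ W → ‖VV G T s‖ ≤ Real.exp (ε * Real.log T)

/-- small in the closed half plane -/
lemma SL.half {G : ℂ[X]} (H : SL G) {ε W : ℝ} (hε : 0 < ε) (hW : 0 ≤ W) : ∃ T₀ : ℝ, 24 ≤ T₀ ∧ ∀ T : ℝ, T₀ ≤ T →
    ∀ s : ℂ, 1 / 2 ≤ s.re → |s.im - T| ≤ W → ‖VV G T s‖ ≤ Real.exp (ε * Real.log T) := by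
  obtain ⟨Wl, hWl, hltl⟩ := ltl (a := 1 / 2) (b := 5 / 4) (α := ε / 2) (β := ε / 2) (B := 1) (ε := ε / 2) (by norm_num)
    zero_le_one (by positivity)
  obtain ⟨T₁, hT₁, hgr⟩ := VV_growth G (W := W + Wl) (by linarith)
  obtain ⟨C, T₂, hC, hT₂, hbdd⟩ := VV_bdd G
  obtain ⟨T₃, hT₃, hab⟩ := absorb C (show 0 < ε / 2 by positivity)
  obtain ⟨T₄, hT₄⟩ := H (ε / 2) (W + Wl) (by positivity) (by linarith)
  refine ⟨T₁ + T₂ + T₃ + |T₄| + W + Wl + 1, by linarith [abs_nonneg T₄], ?_⟩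
  intro T hT s hs1 hs2
  have h4 := le_abs_self T₄
  have h4' := abs_nonneg T₄
  have hL0 : 0 < Real.log T := Real.log_pos (by linarith)
  have e2 := abs_le.1 hs2
  have hwin : ∀ w : ℂ, |w.im - s.im| ≤ Wl → |w.im - T| ≤ W + Wl := by
    intro w hw
    have := abs_le.1 hw
    rw [abs_le]
    constructor <;> linarith
  have hfar : ∀ w : ℂ, 5 / 4 ≤ w.re → ‖VV G T w‖ ≤ Real.exp (ε / 2 * Real.log T) := fun w hw =>
    (hbdd T (by linarith) w hw).trans (hab T (by linarith))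
  rcases le_total (5 / 4) s.re with h | h
  · refine (hfar s h).trans (Real.exp_le_exp.2 ?_)
    gcongr
    linarith
  · have h3 := hltl (Real.log T) hL0.le (VV G T) s.im
      (fun w _ _ hw => (VV_an G T w (by
        have := abs_le.1 (hwin w hw)
        linarith)).differentiableAt)
      (fun w hw1 _ hw => hgr T (by linarith) w (by linarith) (hwin w hw))
      (fun w hw1 hw => hT₄ T (by linarith) w hw1 (hwin w hw))
      (fun w hw1 _ => hfar w hw1.ge) s hs1 h rfl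
    refine h3.trans (Real.exp_le_exp.2 (mul_le_mul_of_nonneg_right ?_ hL0.le))
    rw [sub_self, zero_mul]
    linarith

/-- small for multiples of the operator -/
lemma SL.mul {G R : ℂ[X]} (H : SL G) {r ε W : ℝ} (hr : 0 < r) (hε : 0 < ε) (hW : 0 ≤ W) : ∃ T₀ : ℝ, 24 ≤ T₀ ∧
    ∀ T : ℝ, T₀ ≤ T → ∀ s : ℂ, 1 / 2 + r ≤ s.re → |s.im - T| ≤ W →
      ‖VV (R * G) T s‖ ≤ Real.exp (ε * Real.log T) := by
  obtain ⟨K, hK, hb⟩ := pd_bound R hr
  obtain ⟨T₁, hT₁, h1⟩ := H.half (ε := ε / 2) (W := W + r) (by positivity) (by linarith)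
  obtain ⟨T₂, hT₂, h2⟩ := cc_small one_pos
  obtain ⟨T₃, hT₃, hab⟩ := absorb K (show 0 < ε / 2 by positivity)
  refine ⟨T₁ + T₂ + T₃ + W + r + 1, by linarith, ?_⟩
  intro T hT s hs1 hs2
  have e2 := abs_le.1 hs2
  obtain ⟨_, hc, _⟩ := h2 T (by linarith)
  have e : VV (R * G) T s = pd R (cc T : ℂ) (VV G T) s := by
    exact pd_mul _ _ _ zeta_An (by linarith)
  rw [e]
  have h3 := hb _ hc (VV G T) s (Real.exp (ε / 2 * Real.log T)) (fun z hz => by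
    obtain ⟨c1, c2, c3, c4⟩ := ball_coord hz
    exact ⟨VV_an G T z (by linarith), h1 T (by linarith) z (by linarith)
      (by rw [abs_le]; constructor <;> linarith)⟩)
  calc _ ≤ K * Real.exp (ε / 2 * Real.log T) := h3
    _ ≤ Real.exp (ε / 2 * Real.log T) * Real.exp (ε / 2 * Real.log T) := by
        gcongr
        exact hab T (by linarith)
    _ = _ := by rw [← Real.exp_add]; congr 1; ring

/-- few zeros to the right, for every `δ`, `ε`, `W` -/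
def FR (Q : ℂ[X]) : Prop := ∀ δ ε W : ℝ, 0 < δ → 0 < ε → ∃ T₀ : ℝ, ∀ T : ℝ, T₀ ≤ T → ∀ S : Finset ℂ,
  (∀ s ∈ S, 1 / 2 + δ ≤ s.re ∧ |s.im - T| ≤ W) → ∑ s ∈ S, (mult (VV Q T) s : ℝ) ≤ ε * Real.log T

/-- few zeros to the left, for every `δ`, `ε`, `W` -/
def FL (Q : ℂ[X]) : Prop := ∀ δ ε W : ℝ, 0 < δ → 0 < ε → ∃ T₀ : ℝ, ∀ T : ℝ, T₀ ≤ T → ∀ S : Finset ℂ,
  (∀ s ∈ S, -1 ≤ s.re ∧ s.re ≤ 1 / 2 - δ ∧ |s.im - T| ≤ W) → ∑ s ∈ S, (mult (VV Q T) s : ℝ) ≤ ε * Real.log T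

lemma empty_of {S : Finset ℂ} {Q : ℂ → Prop} {T W : ℝ} (hW : W < 0) (h : ∀ s ∈ S, Q s ∧ |s.im - T| ≤ W) : S = ∅ := by
  rw [Finset.eq_empty_iff_forall_notMem]
  intro s hs
  have := (h s hs).2
  have := abs_nonneg (s.im - T)
  linarith

theorem FR_of_SL {G R : ℂ[X]} (H : SL G) (hQ : (R * G).coeff 0 ≠ 0) : FR (R * G) := by
  intro δ₀ ε W hδ₀ hε
  rcases lt_or_ge W 0 with hW | hW
  · refine ⟨2, fun T hT S hS => ?_⟩
    rw [empty_of hW hS, Finset.sum_empty]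
    have : 0 < Real.log T := Real.log_pos (by linarith)
    positivity
  set δ : ℝ := min δ₀ 1 with hδdef
  have hδ : 0 < δ := lt_min hδ₀ one_pos
  have hδ1 : δ ≤ 1 := min_le_right _ _
  have hδ2 : δ ≤ δ₀ := min_le_left _ _
  obtain ⟨a, T₁, ha, hT₁, hfar⟩ := VV_far hQ
  obtain ⟨η, T₂, hη, hT₂, hfc⟩ := few_count hδ hδ1 hε hW ha
  obtain ⟨T₃, hT₃, hsm⟩ := H.mul (R := R) (r := δ / 4) (ε := η) (W := W + 1) (by positivity) hη (by linarith)
  refine ⟨T₁ + T₂ + T₃ + W + 2, fun T hT S hS => ?_⟩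
  refine hfc T (by linarith) (VV (R * G) T) (3 / 2) S ?_ ?_ ?_
  · intro z hz1 hz2
    have e1 := abs_le.1 hz1
    have e2 := abs_le.1 hz2
    exact ⟨VV_an _ T z (by linarith), hsm T (by linarith) z (by linarith) hz2⟩
  · intro t _
    exact hfar T (by linarith) ⟨3 / 2, t⟩ (by norm_num)
  · intro s hs
    obtain ⟨c1, c2⟩ := hS s hs
    have e2 := abs_le.1 c2
    refine ⟨c2, VV_an _ T s (by linarith), fun h0 => ?_⟩
    have h3 : s.re < 5 / 4 := by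
      by_contra hcon
      push Not at hcon
      have := hfar T (by linarith) s hcon
      rw [h0, norm_zero] at this
      linarith
    rw [abs_le]
    constructor <;> linarith

theorem FL_of_SL {Q G R : ℂ[X]} (H : SL G) (hR : qt Q = R * G) (hQ : (qt Q).coeff 0 ≠ 0) : FL Q := by
  intro δ₀ ε W hδ₀ hε
  rcases lt_or_ge W 0 with hW | hW
  · refine ⟨2, fun T hT S hS => ?_⟩
    rw [empty_of (Q := fun s => -1 ≤ s.re ∧ s.re ≤ 1 / 2 - δ₀) hW
      (fun s hs => ⟨⟨(hS s hs).1, (hS s hs).2.1⟩, (hS s hs).2.2⟩), Finset.sum_empty]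
    have : 0 < Real.log T := Real.log_pos (by linarith)
    positivity
  set δ : ℝ := min δ₀ (1 / 2) with hδdef
  have hδ : 0 < δ := lt_min hδ₀ (by norm_num)
  have hδ1 : δ ≤ 1 / 2 := min_le_right _ _
  have hδ2 : δ ≤ δ₀ := min_le_left _ _
  obtain ⟨a, T₁, ha, hT₁, hfar⟩ := VV_far hQ
  obtain ⟨η, T₂, hη, hT₂, hfc⟩ := few_count (a := a / 2) hδ (by linarith) hε hW (by positivity)
  obtain ⟨T₃, hT₃, hsm⟩ := H.mul (R := R) (r := δ / 4) (ε := η / 2) (W := W + 1) (by positivity) (by positivity)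
    (by linarith)
  obtain ⟨T₄, hT₄, hcl⟩ := tv_close Q (W := W + 1) (by linarith)
  obtain ⟨T₅, hT₅, hab5⟩ := absorb (2 / a + 1) (show (0 : ℝ) < 1 / 4 by norm_num)
  obtain ⟨T₆, hT₆, hab6⟩ := absorb 2 (show 0 < η / 2 by positivity)
  refine ⟨T₁ + T₂ + T₃ + T₄ + T₅ + T₆ + W + 2, fun T hT S hS => ?_⟩
  have hL0 : 0 < Real.log T := Real.log_pos (by linarith)
  set e := Real.exp (-(1 / 4) * Real.log T) with he
  have he0 : 0 < e := Real.exp_pos _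
  have he1 : e < a / 2 ∧ e ≤ 1 := by
    have h3 := hab5 T (by linarith)
    have h4 : e * Real.exp (1 / 4 * Real.log T) = 1 := by
      rw [he, ← Real.exp_add]
      rw [show -(1 / 4) * Real.log T + 1 / 4 * Real.log T = 0 by ring, Real.exp_zero]
    have h5 : e * (2 / a + 1) ≤ 1 := by
      calc e * (2 / a + 1) ≤ e * Real.exp (1 / 4 * Real.log T) := by gcongr
        _ = 1 := h4
    have h6 : 0 < 2 / a := by positivity
    constructor
    · have h7 : e * (2 / a) < 1 := by nlinarith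
      rw [← mul_div_assoc, div_lt_one ha] at h7
      linarith
    · nlinarith
  have hsum : ∑ s ∈ S, (mult (VV Q T) s : ℝ) = ∑ s ∈ S, (mult (tv Q T) s : ℝ) := by
    refine Finset.sum_congr rfl fun s hs => ?_
    have e2 := abs_le.1 (hS s hs).2.2
    rw [tv_mult Q T (by linarith)]
  rw [hsum]
  refine hfc T (by linarith) (tv Q T) (-(1 / 2)) S ?_ ?_ ?_
  · intro z hz1 hz2
    have e1 := abs_le.1 hz1
    have e2 := abs_le.1 hz2
    refine ⟨tv_an _ T z (by linarith), ?_⟩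
    obtain ⟨b1, b2⟩ := hcl T (by linarith) z ⟨1 - z.re, z.im⟩ rfl rfl (by show 3 / 8 ≤ 1 - z.re; linarith)
      (by show 1 - z.re ≤ 3; linarith) hz2
    have b3 := hsm T (by linarith) ⟨1 - z.re, z.im⟩ (by show 1 / 2 + δ / 4 ≤ 1 - z.re; linarith) hz2
    rw [← hR] at b3
    have b4 := hab6 T (by linarith)
    calc ‖tv Q T z‖ ≤ Real.exp (η / 2 * Real.log T) + 1 := b1.trans (add_le_add b3 he1.2)
      _ ≤ Real.exp (η / 2 * Real.log T) * Real.exp (η / 2 * Real.log T) := by nlinarith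
      _ = _ := by rw [← Real.exp_add]; congr 1; ring
  · intro t ht
    have e2 := abs_le.1 ht
    obtain ⟨b1, b2⟩ := hcl T (by linarith) ⟨-(1 / 2), t⟩ ⟨3 / 2, t⟩ (by norm_num) rfl (by norm_num) (by norm_num)
      (by show |t - T| ≤ W + 1; linarith)
    have b3 := hfar T (by linarith) ⟨3 / 2, t⟩ (by norm_num)
    linarith [he1.1]
  · intro s hs
    obtain ⟨c1, c2, c3⟩ := hS s hs
    have e2 := abs_le.1 c3
    refine ⟨c3, tv_an _ T s (by linarith), fun _ => ?_⟩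
    rw [abs_le]
    constructor <;> linarith

theorem SL_of_FR {Q A B G : ℂ[X]} (hG : A * Q + B * qt Q = G) (hQ : Q.coeff 0 ≠ 0) (H : FR Q) : SL G := by
  intro ε W hε hW
  obtain ⟨δ, η, W', T₁, hδ, hη, hW', hT₁, h⟩ := small_right hG hQ hε hW
  obtain ⟨T₂, hT₂⟩ := H δ η W' hδ hη
  exact ⟨max T₁ T₂, fun T hT => h T ((le_max_left _ _).trans hT) (hT₂ T ((le_max_right _ _).trans hT))⟩

theorem SL_of_FL {Q A B G : ℂ[X]} (hG : A * Q + B * qt Q = G) (hQ : (qt Q).coeff 0 ≠ 0) (H : FL Q) : SL G := by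
  intro ε W hε hW
  obtain ⟨δ, η, W', T₁, hδ, hη, hW', hT₁, h⟩ := small_left hG hQ hε hW
  obtain ⟨T₂, hT₂⟩ := H δ η W' hδ hη
  exact ⟨max T₁ T₂, fun T hT => h T ((le_max_left _ _).trans hT) (hT₂ T ((le_max_right _ _).trans hT))⟩

/-- for `G = 1` this is the Lindelöf hypothesis -/
theorem SL_one : SL 1 ↔ LH := by
  have h1 : ∀ T s, VV 1 T s = riemannZeta s := by
    intro T s
    unfold VV
    rw [pd_one]
  constructor
  · intro H
    rw [LH_iff]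
    intro σ hσ hσ1 ε hε
    obtain ⟨T₁, hT₁, h⟩ := H.half (ε := ε) (W := 0) hε le_rfl
    refine small_of_large hε (T₀ := T₁) fun T hT => ?_
    have h2 := h T hT (σ + T * Complex.I) (by simp; linarith) (by simp)
    rwa [h1, exp_mul_log (by linarith)] at h2
  · intro H ε W hε hW
    obtain ⟨C, hC⟩ := H (ε / 2) (by positivity)
    obtain ⟨T₁, hT₁, hab⟩ := absorb (|C| * 3 ^ (ε / 2)) (show 0 < ε / 2 by positivity)
    refine ⟨T₁ + W + 1, fun T hT s hs1 hs2 => ?_⟩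
    have e2 := abs_le.1 hs2
    have hTpos : 0 < T := by linarith
    rw [h1]
    have e : s = 1 / 2 + (s.im : ℂ) * Complex.I := by
      apply Complex.ext <;> simp [hs1]
    have h3 := hC s.im
    rw [← e] at h3
    have h4 : (1 + |s.im|) ≤ 3 * T := by
      have : |s.im| ≤ T + W := by rw [abs_le]; constructor <;> linarith
      linarith
    calc ‖riemannZeta s‖ ≤ C * (1 + |s.im|) ^ (ε / 2) := h3
      _ ≤ |C| * (3 * T) ^ (ε / 2) := by
          gcongr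
          exact le_abs_self C
      _ = (|C| * 3 ^ (ε / 2)) * T ^ (ε / 2) := by
          rw [Real.mul_rpow (by norm_num) hTpos.le]; ring
      _ ≤ Real.exp (ε / 2 * Real.log T) * Real.exp (ε / 2 * Real.log T) := by
          rw [exp_mul_log hTpos]
          gcongr
          rw [← exp_mul_log hTpos]
          exact hab T (by linarith)
      _ = _ := by rw [← Real.exp_add]; congr 1; ring

end Pool.Agent.K7.H52.CF
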