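import Pool.Agent.K7.H52.DL.Base

/-!
Differential operators with constant coefficients, acting on functions analytic in the upper half plane.
-/

set_option autoImplicit false

open Polynomial Filter Topology Set Metric

namespace Pool.Agent.K7.H52.CF

open Pool.Agent.K7.H52.SP

/-- `P(c D) g` -/
noncomputable def pd (P : ℂ[X]) (c : ℂ) (g : ℂ → ℂ) (s : ℂ) : ℂ :=
  P.sum fun j a => a * (c ^ j * iteratedDeriv j g s)

/-- analytic in the upper half plane -/
def An (g : ℂ → ℂ) : Prop := ∀ s : ℂ, 0 < s.im → AnalyticAt ℂ g s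

lemma up_open : IsOpen {s : ℂ | 0 < s.im} := isOpen_lt continuous_const Complex.continuous_im

lemma An.iter {g : ℂ → ℂ} (hg : An g) (n : ℕ) : An (iteratedDeriv n g) := by
  intro s hs
  induction n generalizing s with
  | zero => rw [iteratedDeriv_zero]; exact hg s hs
  | succ n ih => rw [iteratedDeriv_succ]; exact (ih s hs).deriv

lemma pd_add (P Q : ℂ[X]) (c : ℂ) (g : ℂ → ℂ) (s : ℂ) : pd (P + Q) c g s = pd P c g s + pd Q c g s := by
  unfold pd
  exact Polynomial.sum_add_index P Q _ (by simp) (by intro n a b; ring)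

lemma pd_monomial (n : ℕ) (a c : ℂ) (g : ℂ → ℂ) (s : ℂ) :
    pd (monomial n a) c g s = a * (c ^ n * iteratedDeriv n g s) := by
  unfold pd
  rw [Polynomial.sum_monomial_index]
  simp

lemma pd_C (a c : ℂ) (g : ℂ → ℂ) (s : ℂ) : pd (C a) c g s = a * g s := by
  rw [← monomial_zero_left, pd_monomial]
  simp

lemma pd_one (c : ℂ) (g : ℂ → ℂ) (s : ℂ) : pd 1 c g s = g s := by
  rw [← C_1, pd_C, one_mul]

lemma An.pd {g : ℂ → ℂ} (hg : An g) (P : ℂ[X]) (c : ℂ) : An (pd P c g) := by
  intro s hs
  induction P using Polynomial.induction_on' with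
  | add p q hp hq =>
    have : CF.pd (p + q) c g = fun s => CF.pd p c g s + CF.pd q c g s := by
      funext s; exact pd_add p q c g s
    rw [this]
    exact hp.add hq
  | monomial n a =>
    have : CF.pd (monomial n a) c g = fun s => a * (c ^ n * iteratedDeriv n g s) := by
      funext s; exact pd_monomial n a c g s
    rw [this]
    exact analyticAt_const.mul (analyticAt_const.mul (hg.iter n s hs))

lemma pd_C_mul (a : ℂ) (P : ℂ[X]) (c : ℂ) (g : ℂ → ℂ) (s : ℂ) : pd (C a * P) c g s = a * pd P c g s := by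
  induction P using Polynomial.induction_on' with
  | add p q hp hq => rw [mul_add, pd_add, hp, hq, pd_add, mul_add]
  | monomial n b => rw [C_mul_monomial, pd_monomial, pd_monomial]; ring

lemma pd_X_mul (P : ℂ[X]) (c : ℂ) {g : ℂ → ℂ} (hg : An g) {s : ℂ} (hs : 0 < s.im) :
    pd (X * P) c g s = c * deriv (pd P c g) s := by
  induction P using Polynomial.induction_on' with
  | add p q hp hq =>
    have : pd (p + q) c g = fun s => pd p c g s + pd q c g s := by funext s; exact pd_add p q c g s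
    rw [mul_add, pd_add, hp, hq, this]
    rw [deriv_fun_add (hg.pd p c s hs).differentiableAt (hg.pd q c s hs).differentiableAt, mul_add]
  | monomial n b =>
    have : pd (monomial n b) c g = fun s => (b * c ^ n) * iteratedDeriv n g s := by
      funext s; rw [pd_monomial]; ring
    rw [this, X_mul_monomial, pd_monomial, deriv_const_mul _ (hg.iter n s hs).differentiableAt,
      iteratedDeriv_succ]
    ring

/-- functions that agree in the upper half plane have the same derivative there -/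
lemma deriv_up {f g : ℂ → ℂ} (h : ∀ s : ℂ, 0 < s.im → f s = g s) {s : ℂ} (hs : 0 < s.im) :
    deriv f s = deriv g s := by
  have hev : f =ᶠ[𝓝 s] g := by
    filter_upwards [up_open.mem_nhds hs] with z hz
    exact h z hz
  exact hev.deriv_eq

lemma pd_congr (P : ℂ[X]) (c : ℂ) {f g : ℂ → ℂ} (h : ∀ s : ℂ, 0 < s.im → f s = g s) {s : ℂ} (hs : 0 < s.im) :
    pd P c f s = pd P c g s := by
  have hev : f =ᶠ[𝓝 s] g := by
    filter_upwards [up_open.mem_nhds hs] with z hz
    exact h z hz
  unfold pd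
  refine Finset.sum_congr rfl fun j _ => ?_
  simp only
  rw [hev.iteratedDeriv_eq j]

lemma pd_fun_add (P : ℂ[X]) (c : ℂ) {f g : ℂ → ℂ} (hf : An f) (hg : An g) {s : ℂ} (hs : 0 < s.im) :
    pd P c (fun z => f z + g z) s = pd P c f s + pd P c g s := by
  have hfg : An fun z => f z + g z := fun z hz => (hf z hz).add (hg z hz)
  induction P using Polynomial.induction_on generalizing s with
  | C a => rw [pd_C, pd_C, pd_C, mul_add]
  | add p q hp hq =>
    rw [pd_add, hp hs, hq hs, pd_add, pd_add]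
    ring
  | monomial n a ih =>
    have e : (C a * X ^ (n + 1) : ℂ[X]) = X * (C a * X ^ n) := by ring
    rw [e, pd_X_mul _ c hfg hs, pd_X_mul _ c hf hs, pd_X_mul _ c hg hs, ← mul_add]
    rw [deriv_up (fun s hs => ih hs) hs,
      deriv_fun_add (hf.pd _ c s hs).differentiableAt (hg.pd _ c s hs).differentiableAt]

lemma pd_fun_const_mul (P : ℂ[X]) (c b : ℂ) {f : ℂ → ℂ} (hf : An f) {s : ℂ} (hs : 0 < s.im) :
    pd P c (fun z => b * f z) s = b * pd P c f s := by
  have hbf : An fun z => b * f z := fun z hz => analyticAt_const.mul (hf z hz)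
  induction P using Polynomial.induction_on generalizing s with
  | C a => rw [pd_C, pd_C]; ring
  | add p q hp hq => rw [pd_add, hp hs, hq hs, pd_add, mul_add]
  | monomial n a ih =>
    have e : (C a * X ^ (n + 1) : ℂ[X]) = X * (C a * X ^ n) := by ring
    rw [e, pd_X_mul _ c hbf hs, pd_X_mul _ c hf hs]
    rw [deriv_up (fun s hs => ih hs) hs, deriv_const_mul _ (hf.pd _ c s hs).differentiableAt]
    ring

/-- composition -/
lemma pd_mul (P Q : ℂ[X]) (c : ℂ) {g : ℂ → ℂ} (hg : An g) {s : ℂ} (hs : 0 < s.im) :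
    pd (P * Q) c g s = pd P c (pd Q c g) s := by
  induction P using Polynomial.induction_on generalizing s with
  | C a => rw [pd_C_mul, pd_C]
  | add p q hp hq => rw [add_mul, pd_add, hp hs, hq hs, pd_add]
  | monomial n a ih =>
    have e : (C a * X ^ (n + 1) : ℂ[X]) = X * (C a * X ^ n) := by ring
    rw [e, mul_assoc, pd_X_mul _ c hg hs, pd_X_mul _ c (hg.pd Q c) hs]
    rw [deriv_up (fun s hs => ih hs) hs]

/-- exponential factors -/
lemma pd_exp (P : ℂ[X]) (c a s₀ : ℂ) {g : ℂ → ℂ} (hg : An g) {s : ℂ} (hs : 0 < s.im) :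
    pd P c (fun z => Complex.exp (a * (z - s₀)) * g z) s =
      Complex.exp (a * (s - s₀)) * pd (P.comp (X + C (a * c))) c g s := by
  have hE : An fun z => Complex.exp (a * (z - s₀)) * g z := fun z hz =>
    AnalyticAt.mul (by fun_prop) (hg z hz)
  induction P using Polynomial.induction_on generalizing s with
  | C b => rw [pd_C, C_comp, pd_C]; ring
  | add p q hp hq => rw [pd_add, hp hs, hq hs, add_comp, pd_add, mul_add]
  | monomial n b ih =>
    have e : (C b * X ^ (n + 1) : ℂ[X]) = X * (C b * X ^ n) := by ring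
    have e3 : (X * (C b * X ^ n) : ℂ[X]).comp (X + C (a * c)) =
        (X + C (a * c)) * (C b * X ^ n : ℂ[X]).comp (X + C (a * c)) := by
      rw [mul_comp, X_comp]
    rw [e, e3, pd_X_mul _ c hE hs, deriv_up (fun s hs => ih hs) hs, add_mul, pd_add,
      pd_X_mul _ c hg hs, pd_C_mul]
    set h := pd ((C b * X ^ n : ℂ[X]).comp (X + C (a * c))) c g with hh
    have h1 : HasDerivAt (fun z : ℂ => Complex.exp (a * (z - s₀))) (Complex.exp (a * (s - s₀)) * a) s := by
      have h2 : HasDerivAt (fun z : ℂ => a * (z - s₀)) (a * 1) s :=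
        ((hasDerivAt_id s).sub_const s₀).const_mul a
      rw [mul_one] at h2
      exact h2.cexp
    have h3 : HasDerivAt h (deriv h s) s := (hg.pd _ c s hs).differentiableAt.hasDerivAt
    rw [(h1.fun_mul h3).deriv]
    ring

/-- the sign -/
lemma pd_neg (P : ℂ[X]) (c : ℂ) {g : ℂ → ℂ} (hg : An g) {s : ℂ} (hs : 0 < s.im) :
    pd (P.comp (-X)) c g s = pd P (-c) g s := by
  induction P using Polynomial.induction_on generalizing s with
  | C b => rw [C_comp, pd_C, pd_C]
  | add p q hp hq => rw [add_comp, pd_add, hp hs, hq hs, pd_add]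
  | monomial n b ih =>
    have e : (C b * X ^ (n + 1) : ℂ[X]) = X * (C b * X ^ n) := by ring
    rw [e, mul_comp, X_comp, pd_X_mul _ (-c) hg hs]
    have e2 : (-X * (C b * X ^ n : ℂ[X]).comp (-X)) = C (-1) * (X * (C b * X ^ n : ℂ[X]).comp (-X)) := by
      rw [C_neg, C_1]; ring
    rw [e2, pd_C_mul, pd_X_mul _ c hg hs, deriv_up (fun s hs => ih hs) hs]
    ring

/-! ### reflection in the critical line -/

/-- the reflected function -/
noncomputable def rf (g : ℂ → ℂ) (s : ℂ) : ℂ := (starRingEnd ℂ) (g (1 - (starRingEnd ℂ) s))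

lemma rf_hasDeriv {g : ℂ → ℂ} (hg : An g) {s : ℂ} (hs : 0 < s.im) :
    HasDerivAt (rf g) (-(starRingEnd ℂ) (deriv g (1 - (starRingEnd ℂ) s))) s := by
  set w := (starRingEnd ℂ) s with hw
  have him : 0 < (1 - w).im := by simp [hw, hs]
  have h1 : HasDerivAt g (deriv g (1 - w)) (1 - w) := (hg _ him).differentiableAt.hasDerivAt
  have h2 : HasDerivAt (fun z : ℂ => g (1 - z)) (deriv g (1 - w) * (-1)) w := by
    have e : HasDerivAt (fun z : ℂ => 1 - z) (-1) w := by
      simpa using (hasDerivAt_id w).const_sub 1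
    exact HasDerivAt.comp w h1 e
  have h3 := h2.conj_conj
  have e1 : (starRingEnd ℂ) w = s := by rw [hw, Complex.conj_conj]
  rw [e1] at h3
  have e2 : (starRingEnd ℂ) (deriv g (1 - w) * (-1)) = -(starRingEnd ℂ) (deriv g (1 - w)) := by
    rw [map_mul, map_neg, map_one]; ring
  rw [e2] at h3
  exact h3

lemma An.rf {g : ℂ → ℂ} (hg : An g) : An (rf g) := by
  intro s hs
  have : DifferentiableOn ℂ (CF.rf g) {s : ℂ | 0 < s.im} := fun z hz =>
    (rf_hasDeriv hg hz).differentiableAt.differentiableWithinAt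
  exact this.analyticAt (up_open.mem_nhds hs)

lemma rf_deriv {g : ℂ → ℂ} (hg : An g) {s : ℂ} (hs : 0 < s.im) :
    deriv (rf g) s = -rf (deriv g) s := (rf_hasDeriv hg hs).deriv

/-- polynomials and reflection -/
lemma pd_rf (P : ℂ[X]) (c : ℝ) {g : ℂ → ℂ} (hg : An g) {s : ℂ} (hs : 0 < s.im) :
    pd (P.map (starRingEnd ℂ)) (-(c : ℂ)) (rf g) s = rf (pd P c g) s := by
  induction P using Polynomial.induction_on generalizing s with
  | C b =>
    rw [Polynomial.map_C, pd_C]
    unfold rf
    rw [pd_C, map_mul]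
  | add p q hp hq =>
    rw [Polynomial.map_add, pd_add, hp hs, hq hs]
    unfold rf
    rw [pd_add, map_add]
  | monomial n b ih =>
    have e : (C b * X ^ (n + 1) : ℂ[X]) = X * (C b * X ^ n) := by ring
    rw [e, Polynomial.map_mul, Polynomial.map_X]
    set P' := (C b * X ^ n : ℂ[X]) with hP'
    rw [pd_X_mul _ _ hg.rf hs, deriv_up (fun s hs => ih hs) hs, rf_deriv (hg.pd P' c) hs]
    unfold rf
    have him : 0 < (1 - (starRingEnd ℂ) s).im := by simp [hs]
    rw [pd_X_mul _ _ hg him, map_mul, Complex.conj_ofReal]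
    ring

/-- Cauchy's estimate -/
lemma pd_bound (P : ℂ[X]) {r : ℝ} (hr : 0 < r) : ∃ K : ℝ, 1 ≤ K ∧ ∀ c : ℂ, ‖c‖ ≤ 1 → ∀ (g : ℂ → ℂ) (s : ℂ) (M : ℝ),
    (∀ z ∈ closedBall s r, AnalyticAt ℂ g z ∧ ‖g z‖ ≤ M) → ‖pd P c g s‖ ≤ K * M := by
  induction P using Polynomial.induction_on' with
  | add p q hp hq =>
    obtain ⟨K, hK, h⟩ := hp
    obtain ⟨K', hK', h'⟩ := hq
    refine ⟨K + K', by linarith, fun c hc g s M hM => ?_⟩
    rw [pd_add, add_mul]
    exact (norm_add_le _ _).trans (add_le_add (h c hc g s M hM) (h' c hc g s M hM))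
  | monomial n a =>
    refine ⟨max 1 (‖a‖ * (n.factorial / r ^ n)), le_max_left _ _, fun c hc g s M hM => ?_⟩
    have hM0 : 0 ≤ M := (norm_nonneg _).trans (hM s (mem_closedBall_self hr.le)).2
    rw [pd_monomial, norm_mul, norm_mul, norm_pow]
    have h1 : ‖iteratedDeriv n g s‖ ≤ n.factorial * M / r ^ n := by
      refine Complex.norm_iteratedDeriv_le_of_forall_mem_sphere_norm_le n hr ?_ ?_
      · apply DifferentiableOn.diffContOnCl
        intro z hz
        exact (hM z (closure_ball_subset_closedBall hz)).1.differentiableAt.differentiableWithinAt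
      · intro z hz
        exact (hM z (sphere_subset_closedBall hz)).2
    have h2 : ‖c‖ ^ n ≤ 1 := pow_le_one₀ (norm_nonneg _) hc
    calc ‖a‖ * (‖c‖ ^ n * ‖iteratedDeriv n g s‖) ≤ ‖a‖ * (1 * (n.factorial * M / r ^ n)) := by gcongr
      _ = (‖a‖ * (n.factorial / r ^ n)) * M := by ring
      _ ≤ _ := by
          gcongr
          exact le_max_right _ _

end Pool.Agent.K7.H52.CF
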