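import Pool.Agent.K7.H52.CF.Op

/-!
The functional equation near the height `T`, twisted by exponentials.
-/

set_option autoImplicit false

open Polynomial Filter Topology Set Metric

namespace Pool.Agent.K7.H52.CF

open Pool.Agent.K7.H52.SP Pool.Agent.K7.H52.DL H345 H345.Chi

/-- `log (T / 2π)` -/
noncomputable def ell (T : ℝ) : ℝ := Real.log (T / (2 * Real.pi))

/-- the coefficient of the derivation -/
noncomputable def cc (T : ℝ) : ℝ := -(1 / ell T)

/-- the twisted factor of the functional equation -/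
noncomputable def EE (T : ℝ) (s₀ s : ℂ) : ℂ := Complex.exp (-(ell T : ℂ) * (s - s₀)) * XX s

lemma ell_le {T : ℝ} (hT : 1 ≤ T) : ell T ≤ Real.log T := by
  unfold ell
  have h2 : (1 : ℝ) ≤ 2 * Real.pi := by linarith [Real.pi_gt_three]
  refine Real.log_le_log (by positivity) ?_
  exact div_le_self (by linarith) h2

lemma ell_large (N : ℝ) : ∃ T₀ : ℝ, 24 ≤ T₀ ∧ ∀ T : ℝ, T₀ ≤ T → N ≤ ell T := by
  refine ⟨max 24 (2 * Real.pi * Real.exp N), le_max_left _ _, fun T hT => ?_⟩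
  unfold ell
  have h1 : 2 * Real.pi * Real.exp N ≤ T := (le_max_right _ _).trans hT
  have h2 : 0 < 2 * Real.pi := by positivity
  have h3 : Real.exp N ≤ T / (2 * Real.pi) := by
    rw [le_div_iff₀ h2]
    linarith
  rw [Real.le_log_iff_exp_le (lt_of_lt_of_le (Real.exp_pos _) h3)]
  exact h3

lemma norm_XX_line {s₀ : ℂ} (h : s₀.re = 1 / 2) : ‖XX s₀‖ = 1 := by
  have : s₀ = 1 / 2 + (s₀.im : ℂ) * Complex.I := by
    apply Complex.ext <;> simp [h]
  rw [this]
  exact norm_XX_half _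

lemma EE_close {W : ℝ} (hW : 0 ≤ W) : ∃ C T₀ : ℝ, 0 ≤ C ∧ 24 ≤ T₀ ∧ ∀ T : ℝ, T₀ ≤ T → ∀ s₀ s : ℂ,
    s₀.re = 1 / 2 → |s₀.im - T| ≤ W → 0 < s.re → s.re ≤ 4 → |s.im - T| ≤ W → ‖EE T s₀ s - XX s₀‖ ≤ C / T := by
  set K₀ : ℝ := (28 + 2 * W) * (4 + 2 * W) with hK₀
  have hK₀pos : 0 < K₀ := by positivity
  refine ⟨2 * K₀, max (max 24 (2 * W)) K₀, by positivity, (le_max_left _ _).trans (le_max_left _ _), ?_⟩
  intro T hT s₀ s h1 h2 h3 h4 h5
  have hT24 : 24 ≤ T := ((le_max_left _ _).trans (le_max_left _ _)).trans hT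
  have hTW : 2 * W ≤ T := ((le_max_right _ _).trans (le_max_left _ _)).trans hT
  have hTK : K₀ ≤ T := (le_max_right _ _).trans hT
  have hT0 : 0 < T := by linarith
  have e2 := abs_le.1 h2
  have e5 := abs_le.1 h5
  set d : ℂ := s - s₀ with hd
  have hdn : ‖d‖ ≤ 4 + 2 * W := by
    refine (Complex.norm_le_abs_re_add_abs_im d).trans ?_
    have a1 : |d.re| ≤ 4 := by
      rw [hd, Complex.sub_re, h1, abs_le]
      constructor <;> linarith
    have a2 : |d.im| ≤ 2 * W := by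
      rw [hd, Complex.sub_im, abs_le]
      constructor <;> linarith
    linarith
  set P : ℝ → ℂ := fun u => s₀ + (u : ℂ) * d with hP
  have hPre : ∀ u, (P u).re = 1 / 2 + u * (s.re - 1 / 2) := by
    intro u
    simp [hP, hd, h1]
  have hPim : ∀ u, (P u).im = s₀.im + u * (s.im - s₀.im) := by
    intro u
    simp [hP, hd]
  have hreg : ∀ u : ℝ, 0 ≤ u → u ≤ 1 → 0 < (P u).re ∧ (P u).re ≤ 4 ∧ |(P u).im - T| ≤ W := by
    intro u hu0 hu1
    refine ⟨?_, ?_, ?_⟩
    · rw [hPre]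
      nlinarith
    · rw [hPre]
      nlinarith
    · rw [hPim, abs_le]
      constructor <;> nlinarith
  set K : ℝ := K₀ / T with hK
  have hKpos : 0 < K := by positivity
  have hK1 : K ≤ 1 := by rw [hK, div_le_one hT0]; exact hTK
  set h : ℝ → ℂ := fun u => EE T s₀ (P u) - XX s₀ with hh
  have hder : ∀ u : ℝ, 0 ≤ u → u ≤ 1 → HasDerivAt h (EE T s₀ (P u) * ((L2 (P u) - (ell T : ℂ)) * d)) u := by
    intro u hu0 hu1
    obtain ⟨g1, g2, g3⟩ := hreg u hu0 hu1
    have g4 := abs_le.1 g3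
    have d1 := hasDerivAt_XX (s := P u) g1 (by linarith)
    have d2 : HasDerivAt P d u := by
      have := (((hasDerivAt_id u).ofReal_comp).mul_const d).const_add s₀
      simpa [hP] using this
    have d3 : HasDerivAt (fun z : ℂ => Complex.exp (-(ell T : ℂ) * (z - s₀)))
        (Complex.exp (-(ell T : ℂ) * (P u - s₀)) * (-(ell T : ℂ) * 1)) (P u) :=
      (((hasDerivAt_id (P u)).sub_const s₀).const_mul (-(ell T : ℂ))).cexp
    have d4 := d3.mul d1
    have d5 := d4.comp u d2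
    have d6 := d5.sub_const (XX s₀)
    refine HasDerivAt.congr_deriv d6 ?_
    unfold EE
    ring
  have hb : ∀ u : ℝ, 0 ≤ u → u ≤ 1 → ‖(L2 (P u) - (ell T : ℂ)) * d‖ ≤ K := by
    intro u hu0 hu1
    obtain ⟨g1, g2, g3⟩ := hreg u hu0 hu1
    have g4 := abs_le.1 g3
    have hpos : 0 < (P u).im := by linarith
    have b1 := L2_close g1 g2 (by linarith)
    have b2 : |Real.log ((P u).im / (2 * Real.pi)) - ell T| ≤ 2 * W / T := by
      unfold ell
      rw [Real.log_div hpos.ne' (by positivity), Real.log_div hT0.ne' (by positivity)]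
      have b3 := abs_log_ratio hT0 (x := (P u).im - T) (by linarith [abs_le.2 g4])
      rw [add_sub_cancel] at b3
      have b4 : 2 * |(P u).im - T| / T ≤ 2 * W / T := by gcongr
      refine le_trans (le_of_eq ?_) (b3.trans b4)
      congr 1
      ring
    have b5 : ‖L2 (P u) - (ell T : ℂ)‖ ≤ (28 + 2 * W) / T := by
      calc ‖L2 (P u) - (ell T : ℂ)‖
          = ‖(L2 (P u) - (Real.log ((P u).im / (2 * Real.pi)) : ℂ)) +
            ((Real.log ((P u).im / (2 * Real.pi)) - ell T : ℝ) : ℂ)‖ := by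
            congr 1; push_cast; ring
        _ ≤ 14 / (P u).im + 2 * W / T := by
            refine (norm_add_le _ _).trans (add_le_add b1 ?_)
            rw [Complex.norm_real]
            exact b2
        _ ≤ 28 / T + 2 * W / T := by
            apply add_le_add _ le_rfl
            rw [div_le_div_iff₀ hpos hT0]
            linarith
        _ = (28 + 2 * W) / T := by ring
    rw [norm_mul]
    calc ‖L2 (P u) - (ell T : ℂ)‖ * ‖d‖ ≤ (28 + 2 * W) / T * (4 + 2 * W) := by gcongr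
      _ = K := by rw [hK, hK₀]; ring
  have h0 : h 0 = 0 := by
    simp only [hh, hP, EE]
    simp
  have hgron := norm_le_gronwallBound_of_norm_deriv_right_le (f := h)
    (f' := fun u => EE T s₀ (P u) * ((L2 (P u) - (ell T : ℂ)) * d)) (δ := 0) (K := K) (ε := K)
    (a := 0) (b := 1)
    (fun u hu => (hder u hu.1 hu.2).continuousAt.continuousWithinAt)
    (fun u hu => (hder u hu.1 hu.2.le).hasDerivWithinAt) (by rw [h0, norm_zero])
    (fun u hu => by
      rw [norm_mul]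
      have c1 := hb u hu.1 hu.2.le
      have c2 : ‖EE T s₀ (P u)‖ ≤ ‖h u‖ + 1 := by
        have : EE T s₀ (P u) = h u + XX s₀ := by simp only [hh]; ring
        rw [this]
        exact (norm_add_le _ _).trans (by rw [norm_XX_line h1])
      calc ‖EE T s₀ (P u)‖ * ‖(L2 (P u) - (ell T : ℂ)) * d‖ ≤ (‖h u‖ + 1) * K := by gcongr
        _ = K * ‖h u‖ + K := by ring) 1 ⟨zero_le_one, le_rfl⟩
  rw [gronwallBound_of_K_ne_0 hKpos.ne'] at hgron
  simp only [zero_mul, zero_add, div_self hKpos.ne', one_mul, sub_zero, mul_one] at hgron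
  have h1' : h 1 = EE T s₀ s - XX s₀ := by
    have : P 1 = s := by simp [hP, hd]
    simp only [hh]
    rw [this]
  rw [h1'] at hgron
  refine hgron.trans ?_
  have h6 := Real.abs_exp_sub_one_le (x := K) (by rw [abs_of_pos hKpos]; exact hK1)
  rw [abs_of_pos hKpos] at h6
  calc Real.exp K - 1 ≤ |Real.exp K - 1| := le_abs_self _
    _ ≤ 2 * K := h6
    _ = 2 * K₀ / T := by rw [hK]; ring

/-- the twisted zeta function -/
noncomputable def ff (T : ℝ) (s₀ s : ℂ) : ℂ := Complex.exp ((ell T : ℂ) / 2 * (s - s₀)) * riemannZeta s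

lemma ff_an (T : ℝ) (s₀ : ℂ) : An (ff T s₀) := fun s hs =>
  AnalyticAt.mul (by fun_prop) (zeta_an (ne_one_of_im' hs))

lemma zeta_An : An riemannZeta := fun _ hs => zeta_an (ne_one_of_im' hs)

lemma norm_ff (T : ℝ) {s₀ s : ℂ} (h : s₀.re = 1 / 2) :
    ‖ff T s₀ s‖ = Real.exp (ell T / 2 * (s.re - 1 / 2)) * ‖riemannZeta s‖ := by
  unfold ff
  rw [norm_mul, Complex.norm_exp]
  congr 2
  have : (ell T : ℂ) / 2 = ((ell T / 2 : ℝ) : ℂ) := by push_cast; ring
  rw [this, Complex.re_ofReal_mul, Complex.sub_re, h]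

lemma rf_ff (T : ℝ) {s₀ s : ℂ} (h : s₀.re = 1 / 2) (hs : 0 < s.im) :
    rf (ff T s₀) s = EE T s₀ s * ff T s₀ s := by
  unfold rf ff EE
  have hs1 : s ≠ 1 := ne_one_of_im' hs
  have hfe : riemannZeta (1 - s) = XX s * riemannZeta s := by
    refine H345.zeta_fe s ?_ hs1
    intro n hn
    rw [hn] at hs
    simp at hs
  have e1 : (starRingEnd ℂ) (riemannZeta (1 - (starRingEnd ℂ) s)) = riemannZeta (1 - s) := by
    rw [← riemannZeta_conj]
    simp
  have e2 : (starRingEnd ℂ) s₀ = 1 - s₀ := by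
    apply Complex.ext
    · simp [h]
      norm_num
    · simp
  rw [map_mul, e1, hfe, ← Complex.exp_conj]
  have e3 : (starRingEnd ℂ) ((ell T : ℂ) / 2 * (1 - (starRingEnd ℂ) s - s₀)) =
      -(ell T : ℂ) * (s - s₀) + (ell T : ℂ) / 2 * (s - s₀) := by
    rw [map_mul, map_sub, map_sub, map_one, Complex.conj_conj, e2, map_div₀, Complex.conj_ofReal, conj_two]
    ring
  rw [e3, Complex.exp_add]
  ring

/-- the function `Q(-D / log (T / 2π)) ζ` -/
noncomputable def VV (Q : ℂ[X]) (T : ℝ) (s : ℂ) : ℂ := pd Q (cc T : ℂ) riemannZeta s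

/-- the polynomial, centred at `1/2` -/
noncomputable def sh (Q : ℂ[X]) : ℂ[X] := Q.comp (X + C (1 / 2))

/-- the reflected polynomial -/
noncomputable def qt (Q : ℂ[X]) : ℂ[X] := (Q.map (starRingEnd ℂ)).comp (1 - X)

lemma map_conj_conj (Q : ℂ[X]) : (Q.map (starRingEnd ℂ)).map (starRingEnd ℂ) = Q := by
  rw [Polynomial.map_map]
  have : (starRingEnd ℂ).comp (starRingEnd ℂ) = RingHom.id ℂ := by
    ext x
    simp
  rw [this, Polynomial.map_id]

lemma qt_qt (Q : ℂ[X]) : qt (qt Q) = Q := by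
  unfold qt
  rw [Polynomial.map_comp, map_conj_conj, comp_assoc]
  simp

lemma sh_qt (Q : ℂ[X]) : sh (qt Q) = ((sh Q).map (starRingEnd ℂ)).comp (-X) := by
  unfold sh qt
  rw [Polynomial.map_comp, comp_assoc, comp_assoc]
  congr 1
  rw [Polynomial.map_add, Polynomial.map_X, Polynomial.map_C]
  simp only [sub_comp, one_comp, X_comp, add_comp, C_comp]
  have h1 : (1 : ℂ[X]) = C (1 / 2) + C (1 / 2) := by
    rw [← C_add, ← C_1]
    congr 1
    norm_num
  have h2 : (starRingEnd ℂ) (1 / 2) = 1 / 2 := by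
    rw [map_div₀, map_one, conj_two]
  rw [h1, h2]
  ring

lemma VV_an (Q : ℂ[X]) (T : ℝ) : An (VV Q T) := zeta_An.pd _ _

lemma sh_map (Q : ℂ[X]) {T : ℝ} (hT : ell T ≠ 0) :
    (sh Q).comp (X + C ((ell T : ℂ) / 2 * (cc T : ℂ))) = Q := by
  have h : (ell T : ℂ) / 2 * (cc T : ℂ) = -(1 / 2) := by
    unfold cc
    push_cast
    have : (ell T : ℂ) ≠ 0 := by exact_mod_cast hT
    field_simp
  rw [h]
  unfold sh
  rw [comp_assoc]
  have h3 : (X + C (1 / 2) : ℂ[X]).comp (X + C (-(1 / 2))) = X := by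
    simp only [add_comp, X_comp, C_comp]
    rw [add_assoc, ← C_add]
    norm_num
  rw [h3, comp_X]

/-- `P(cD) f` for the shifted polynomial -/
lemma pd_ff (Q : ℂ[X]) {T : ℝ} (hT : ell T ≠ 0) (s₀ : ℂ) {s : ℂ} (hs : 0 < s.im) :
    pd (sh Q) (cc T : ℂ) (ff T s₀) s = Complex.exp ((ell T : ℂ) / 2 * (s - s₀)) * VV Q T s := by
  have h := pd_exp (sh Q) (cc T : ℂ) ((ell T : ℂ) / 2) s₀ zeta_An hs
  rw [sh_map Q hT] at h
  exact h

/-- reflection of `P(cD) f` -/
lemma rf_pd_ff (Q : ℂ[X]) (T : ℝ) (s₀ : ℂ) {s : ℂ} (hs : 0 < s.im) :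
    rf (pd (sh Q) (cc T : ℂ) (ff T s₀)) s = pd (sh (qt Q)) (cc T : ℂ) (rf (ff T s₀)) s := by
  rw [← pd_rf (sh Q) (cc T) (ff_an T s₀) hs, sh_qt, pd_neg _ _ (ff_an T s₀).rf hs]

end Pool.Agent.K7.H52.CF
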